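import Pool.Agent.TH299.SW.Trace
import Pool.Agent.W201.Win

/-!
The counting argument for one window `(a, b)` near the origin.
-/

open Complex Filter Topology Set MeasureTheory
open scoped BigOperators ComplexConjugate

namespace Pool.Agent.TH299.SW

open H370 H295SI H143TG Pool.Agent.W201

lemma phiG_symm {g : ℝ → ℝ} (hg : Win g) (Λ x y : ℝ) :
    phiG g Λ ((x : ℂ) - y) = phiG g Λ ((y : ℂ) - x) := by
  rw [← phiG_even hg, neg_sub]

lemma extG_YT {g : ℝ → ℝ} (hg : Win g) (Λ : ℝ) (x1 x2 : ℝ) (S1 : Finset ℝ) (h1 : x1 ∉ S1)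
    (h2 : x2 ∈ S1) (A : ℝ → ℝ → ℝ) (t : ℝ) :
    YTG g Λ (insert x1 S1) (ext x1 x2 S1 A t) =
      YTG g Λ S1 A + (4 * t * (phiG g Λ ((x1 : ℂ) - x2)).re - 2 * t ^ 2) := by
  have hne : x1 ≠ x2 := fun h => h1 (h ▸ h2)
  unfold YTG
  rw [ext_sum x1 x2 S1 h1 h2]
  have e2 : ∑ x ∈ insert x1 S1, ∑ y ∈ insert x1 S1, (ext x1 x2 S1 A t x y) ^ 2 =
      ∑ x ∈ S1, ∑ y ∈ S1, A x y ^ 2 + 2 * t ^ 2 := by
    have := ext_sum x1 x2 S1 h1 h2 (fun x y => A x y ^ 2) (t ^ 2) (fun _ _ => 1)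
    simp only [mul_one] at this
    simp_rw [ext_sq x1 x2 S1 h1 h2]
    rw [this]
    ring
  rw [e2, if_neg hne, if_neg hne.symm, phiG_symm hg Λ x2 x1]
  ring

/-- the chain lemma -/
theorem chainG {g : ℝ → ℝ} (hg : Win g) {Λ μ : ℝ} :
    ∀ (n : ℕ) (S : Finset ℝ), S.card = n → ∀ hne : S.Nonempty,
      (∀ x ∈ S, ∀ y ∈ S, x < y → ∃ t : ℝ, |t| ≤ 1 / 2 ∧
        1 - (4 * t * (phiG g Λ ((x : ℂ) - y)).re - 2 * t ^ 2) ≤ μ * (y - x)) →
      ∃ Y : ℝ → ℝ → ℝ, (∀ v : ℝ → ℂ, ∑ x ∈ S, ∑ y ∈ S, Y x y * (conj (v x) * v y).re ≤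
          ∑ x ∈ S, ‖v x‖ ^ 2 - 1 / 2 * ‖v (S.min' hne)‖ ^ 2) ∧
        (S.card : ℝ) - YTG g Λ S Y ≤ 1 + μ * (S.max' hne - S.min' hne) := by
  classical
  intro n
  induction n using Nat.strong_induction_on with
  | _ n ih =>
    intro S hSn hne hk
    set x1 := S.min' hne with hx1
    have hx1S : x1 ∈ S := S.min'_mem hne
    set S1 := S.erase x1 with hS1
    have hSins : insert x1 S1 = S := Finset.insert_erase hx1S
    have hx1S1 : x1 ∉ S1 := Finset.notMem_erase _ _
    rcases S1.eq_empty_or_nonempty with hS1e | hS1ne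
    · have hS : S = {x1} := by rw [← hSins, hS1e]; rfl
      refine ⟨fun _ _ => 0, fun v => ?_, ?_⟩
      · simp only [zero_mul, Finset.sum_const_zero]
        have : ‖v x1‖ ^ 2 ≤ ∑ x ∈ S, ‖v x‖ ^ 2 :=
          Finset.single_le_sum (f := fun x => ‖v x‖ ^ 2) (fun x _ => by positivity) hx1S
        have h0 : 0 ≤ ‖v x1‖ ^ 2 := by positivity
        linarith
      · have e1 : YTG g Λ S (fun _ _ => 0) = 0 := by unfold YTG; simp
        have e2 : S.max' hne = x1 := by
          have h3 : ∀ z ∈ S, z = x1 := by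
            intro z hz
            rw [hS] at hz
            exact Finset.mem_singleton.mp hz
          exact h3 _ (S.max'_mem hne)
        have e3 : (S.card : ℝ) = 1 := by rw [hS]; simp
        rw [e1, e2, e3, sub_self, mul_zero]
        norm_num
    · have hc1 : S1.card < n := by rw [← hSn]; exact Finset.card_erase_lt_of_mem hx1S
      have hsub : ∀ x ∈ S1, x ∈ S := fun x hx => Finset.mem_of_mem_erase hx
      obtain ⟨Y1, hY1, hY1c⟩ := ih _ hc1 S1 rfl hS1ne
        (fun x hx y hy hxy => hk x (hsub x hx) y (hsub y hy) hxy)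
      set x2 := S1.min' hS1ne with hx2
      have hx2S1 : x2 ∈ S1 := S1.min'_mem hS1ne
      have hx2S : x2 ∈ S := Finset.mem_of_mem_erase hx2S1
      have h12 : x1 < x2 := lt_of_le_of_ne (S.min'_le x2 hx2S)
        (Ne.symm (Finset.ne_of_mem_erase hx2S1))
      have hmax : S1.max' hS1ne = S.max' hne := by
        apply le_antisymm
        · exact S.le_max' _ (Finset.mem_of_mem_erase (S1.max'_mem hS1ne))
        · apply S1.le_max'
          rw [hS1, Finset.mem_erase]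
          refine ⟨?_, S.max'_mem hne⟩
          have := S.le_max' x2 hx2S
          exact (h12.trans_le this).ne'
      obtain ⟨t, ht, htc⟩ := hk x1 hx1S x2 hx2S h12
      refine ⟨ext x1 x2 S1 Y1 t, fun v => ?_, ?_⟩
      · have h1 := ext_sum x1 x2 S1 hx1S1 hx2S1 Y1 t (fun x y => (conj (v x) * v y).re)
        rw [hSins] at h1
        rw [h1]
        have h2 := hY1 v
        have h3 : ∑ x ∈ S, ‖v x‖ ^ 2 = ‖v x1‖ ^ 2 + ∑ x ∈ S1, ‖v x‖ ^ 2 := by
          rw [← hSins, Finset.sum_insert hx1S1]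
        rw [h3]
        have h4 : (conj (v x1) * v x2).re + (conj (v x2) * v x1).re =
            2 * (conj (v x1) * v x2).re := by
          simp only [Complex.mul_re, Complex.conj_re, Complex.conj_im]
          ring
        have h5 : |(conj (v x1) * v x2).re| ≤ ‖v x1‖ * ‖v x2‖ := by
          refine (Complex.abs_re_le_norm _).trans ?_
          rw [norm_mul, Complex.norm_conj]
        have h6 : t * (2 * (conj (v x1) * v x2).re) ≤
            1 / 2 * (‖v x1‖ ^ 2 + ‖v x2‖ ^ 2) := by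
          have a1 : t * (2 * (conj (v x1) * v x2).re) ≤ |t| * (2 * |(conj (v x1) * v x2).re|) := by
            have := le_abs_self (t * (2 * (conj (v x1) * v x2).re))
            rw [abs_mul, abs_mul, abs_two] at this
            exact this
          have a2 : |t| * (2 * |(conj (v x1) * v x2).re|) ≤ 1 / 2 * (2 * (‖v x1‖ * ‖v x2‖)) := by
            apply mul_le_mul ht _ (by positivity) (by norm_num)
            linarith
          have a3 := two_mul_le_add_sq (‖v x1‖) (‖v x2‖)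
          linarith
        rw [h4]
        linarith
      · have h1 := extG_YT hg Λ x1 x2 S1 hx1S1 hx2S1 Y1 t
        rw [hSins] at h1
        rw [h1]
        have h2 : (S.card : ℝ) = S1.card + 1 := by
          rw [← hSins, Finset.card_insert_of_notMem hx1S1]; push_cast; ring
        rw [h2]
        rw [hmax] at hY1c
        nlinarith

/-- extension of a test matrix by zero -/
lemma YTG_zero_ext {g : ℝ → ℝ} (Λ : ℝ) {S S' : Finset ℝ} (h : S' ⊆ S) (Y : ℝ → ℝ → ℝ) :
    ∃ Y' : ℝ → ℝ → ℝ, YTG g Λ S Y' = YTG g Λ S' Y ∧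
      ∀ L : ℝ → ℝ → ℝ, ∑ x ∈ S, ∑ y ∈ S, Y' x y * L x y = ∑ x ∈ S', ∑ y ∈ S', Y x y * L x y := by
  classical
  set Y' : ℝ → ℝ → ℝ := fun x y => if x ∈ S' ∧ y ∈ S' then Y x y else 0 with hY'
  have key : ∀ L : ℝ → ℝ → ℝ, ∑ x ∈ S, ∑ y ∈ S, Y' x y * L x y =
      ∑ x ∈ S', ∑ y ∈ S', Y x y * L x y := by
    intro L
    rw [← Finset.sum_subset h]
    · refine Finset.sum_congr rfl fun x hx => ?_
      rw [← Finset.sum_subset h]
      · refine Finset.sum_congr rfl fun y hy => ?_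
        rw [hY']
        simp only
        rw [if_pos ⟨hx, hy⟩]
      · intro y _ hy
        rw [hY']
        simp only
        rw [if_neg (fun h => hy h.2), zero_mul]
    · intro x _ hx
      refine Finset.sum_eq_zero fun y _ => ?_
      rw [hY']
      simp only
      rw [if_neg (fun h => hx h.1), zero_mul]
  refine ⟨Y', ?_, key⟩
  unfold YTG
  have e1 : ∑ x ∈ S, ∑ y ∈ S, (Y' x y) ^ 2 = ∑ x ∈ S', ∑ y ∈ S', (Y x y) ^ 2 := by
    have h1 : ∀ x y, (Y' x y) ^ 2 = Y' x y * Y' x y := fun x y => pow_two _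
    have h2 : ∀ x y, (Y x y) ^ 2 = Y x y * Y x y := fun x y => pow_two _
    simp_rw [h1, h2]
    rw [key]
    refine Finset.sum_congr rfl fun x hx => Finset.sum_congr rfl fun y hy => ?_
    rw [hY']
    simp only
    rw [if_pos ⟨hx, hy⟩]
  rw [e1, key]

/-- one window `(a, b)` -/
theorem windowG {F : ℂ → ℂ} (hF : GoodL F) {U1 U2 : ℝ} (hU : 1 ≤ U1) (hU12 : U1 ≤ U2)
    {g : ℝ → ℝ} (hg : Win g) {Λ μ a b : ℝ} (hμ : 0 ≤ μ)
    (hk : ∀ x y : ℝ, x < y → ¬ (a < y - x ∧ y - x < b) → ∃ t : ℝ, |t| ≤ 1 / 2 ∧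
      1 - (4 * t * (phiG g Λ ((x : ℂ) - y)).re - 2 * t ^ 2) ≤ μ * (y - x)) :
    2 * (NN F U1 U2 : ℝ) - QQG g F Λ U1 U2 - (1 + μ * (U2 - U1)) ≤ PC (SF F U1 U2) a b := by
  classical
  set S := SF F U1 U2 with hS
  set Bad := S.filter (fun y => ∃ x ∈ S, a < y - x ∧ y - x < b) with hBad
  set S' := S \ Bad with hS'
  have hBS : Bad ⊆ S := Finset.filter_subset _ _
  have hS'S : S' ⊆ S := Finset.sdiff_subset
  have hY : ∃ Y : ℝ → ℝ → ℝ, (∀ v : ℝ → ℂ, ∑ x ∈ S', ∑ y ∈ S', Y x y * (conj (v x) * v y).re ≤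
          ∑ x ∈ S', ‖v x‖ ^ 2) ∧ (S'.card : ℝ) - YTG g Λ S' Y ≤ 1 + μ * (U2 - U1) := by
    rcases S'.eq_empty_or_nonempty with h | hne
    · refine ⟨fun _ _ => 0, fun v => by rw [h]; simp, ?_⟩
      rw [h]
      have : YTG g Λ ∅ (fun _ _ => 0) = 0 := by unfold YTG; simp
      rw [this]
      have h2 : 0 ≤ μ * (U2 - U1) := mul_nonneg hμ (by linarith)
      simp only [Finset.card_empty, Nat.cast_zero, sub_zero]
      linarith
    · obtain ⟨Y, hY1, hY2⟩ := chainG hg (Λ := Λ) (μ := μ) S'.card S' rfl hne (by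
        intro x hx y hy hxy
        apply hk x y hxy
        intro hcon
        rw [hS', Finset.mem_sdiff] at hy
        apply hy.2
        rw [hBad, Finset.mem_filter]
        exact ⟨hy.1, x, hS'S hx, hcon⟩)
      refine ⟨Y, fun v => (hY1 v).trans (by
        have : 0 ≤ ‖v (S'.min' hne)‖ ^ 2 := by positivity
        linarith), hY2.trans ?_⟩
      have h1 := (SF_mem hF hU (hS'S (S'.max'_mem hne))).2
      have h2 := (SF_mem hF hU (hS'S (S'.min'_mem hne))).1
      have h3 : μ * (S'.max' hne - S'.min' hne) ≤ μ * (U2 - U1) :=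
        mul_le_mul_of_nonneg_left (by linarith) hμ
      linarith
  obtain ⟨Y, hY1, hY2⟩ := hY
  obtain ⟨Y', hY'T, hY's⟩ := YTG_zero_ext (g := g) Λ hS'S Y
  have h1 := (trace_zerosY hF hU hg Λ Y' (fun v => by
    rw [hY's fun x y => (conj (v x) * v y).re]
    exact (hY1 v).trans (Finset.sum_le_sum_of_subset_of_nonneg hS'S
      (fun x _ _ => by positivity)))).1
  rw [hY'T, Ns_card hF hU, ← hS] at h1
  have h2 : (S.card : ℝ) = S'.card + Bad.card := by
    have := Finset.card_sdiff_add_card_eq_card hBS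
    rw [← hS'] at this
    rw [← this]
    push_cast
    ring
  have h3 : (Bad.card : ℝ) ≤ PC S a b := by
    have : Bad.card ≤ PC S a b := by
      unfold PC
      rw [Finset.card_eq_sum_ones]
      refine (Finset.sum_le_sum fun y hy => ?_).trans (Finset.sum_le_sum_of_subset hBS)
      obtain ⟨x, hx, hxy⟩ := (Finset.mem_filter.mp hy).2
      exact Finset.card_pos.mpr ⟨x, Finset.mem_filter.mpr ⟨hx, hxy⟩⟩
    exact_mod_cast this
  linarith

end Pool.Agent.TH299.SW
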