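import Pool.Agent.TH299.SW.WinB
import Pool.Agent.W259.Nona.Taylor

/-!
The transform of the window `gw`, numerically.
-/

open Complex Filter Topology Set MeasureTheory

namespace Pool.Agent.TH299.SW

open H370 H295SI

/-- the transform of the window -/
noncomputable def phiR (u : ℝ) : ℝ := ∫ x in (-1 / 2 : ℝ)..(1 / 2), gw x * Real.cos (2 * Real.pi * u * x)

lemma cos_cos (A B : ℝ) : Real.cos A * Real.cos B = (Real.cos (A + B) + Real.cos (A - B)) / 2 := by
  rw [Real.cos_add, Real.cos_sub]; ring

lemma phiR_formula {u : ℝ} (h0 : 0 < u) (h1 : u ≠ 1) (h2 : u ≠ 2) :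
    phiR u = Real.sin (Real.pi * u) / Real.pi *
      (1 / u + 47 / 100 * (u / (u ^ 2 - 1)) + 3 / 20 * (u / (4 - u ^ 2))) := by
  have hpi := Real.pi_pos
  have n1 : u - 1 ≠ 0 := sub_ne_zero.mpr h1
  have n2 : u - 2 ≠ 0 := sub_ne_zero.mpr h2
  have n3 : u + 1 ≠ 0 := by positivity
  have n4 : u + 2 ≠ 0 := by positivity
  have n5 : u ^ 2 - 1 ≠ 0 := by
    rw [show u ^ 2 - 1 = (u - 1) * (u + 1) by ring]; exact mul_ne_zero n1 n3
  have n6 : 4 - u ^ 2 ≠ 0 := by
    rw [show 4 - u ^ 2 = -((u - 2) * (u + 2)) by ring]; exact neg_ne_zero.mpr (mul_ne_zero n2 n4)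
  unfold phiR
  have hd : ∀ x ∈ Set.uIcc (-1 / 2 : ℝ) (1 / 2), HasDerivAt
      (fun x : ℝ => Real.sin (2 * Real.pi * u * x) / (2 * Real.pi * u) -
        47 / 200 * (Real.sin (2 * Real.pi * (u + 1) * x) / (2 * Real.pi * (u + 1)) +
          Real.sin (2 * Real.pi * (u - 1) * x) / (2 * Real.pi * (u - 1))) -
        3 / 40 * (Real.sin (2 * Real.pi * (u + 2) * x) / (2 * Real.pi * (u + 2)) +
          Real.sin (2 * Real.pi * (u - 2) * x) / (2 * Real.pi * (u - 2))))
      (gw x * Real.cos (2 * Real.pi * u * x)) x := by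
    intro x _
    have key : ∀ v : ℝ, v ≠ 0 → HasDerivAt (fun x : ℝ => Real.sin (2 * Real.pi * v * x) /
        (2 * Real.pi * v)) (Real.cos (2 * Real.pi * v * x)) x := by
      intro v hv
      have hx : HasDerivAt (fun x : ℝ => x) 1 x := hasDerivAt_id x
      have := (hx.const_mul (2 * Real.pi * v)).sin.div_const (2 * Real.pi * v)
      refine this.congr_deriv ?_
      field_simp
    have D := ((key u h0.ne').sub (((key (u + 1) n3).add (key (u - 1) n1)).const_mul (47 / 200))).sub
      (((key (u + 2) n4).add (key (u - 2) n2)).const_mul (3 / 40))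
    refine D.congr_deriv ?_
    unfold gw
    have c1 := cos_cos (2 * Real.pi * u * x) (2 * Real.pi * x)
    have c2 := cos_cos (2 * Real.pi * u * x) (4 * Real.pi * x)
    have e1 : 2 * Real.pi * u * x + 2 * Real.pi * x = 2 * Real.pi * (u + 1) * x := by ring
    have e2 : 2 * Real.pi * u * x - 2 * Real.pi * x = 2 * Real.pi * (u - 1) * x := by ring
    have e3 : 2 * Real.pi * u * x + 4 * Real.pi * x = 2 * Real.pi * (u + 2) * x := by ring
    have e4 : 2 * Real.pi * u * x - 4 * Real.pi * x = 2 * Real.pi * (u - 2) * x := by ring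
    rw [e1, e2] at c1
    rw [e3, e4] at c2
    linear_combination (47 / 100) * c1 + (3 / 20) * c2
  have hc : Continuous fun x : ℝ => gw x * Real.cos (2 * Real.pi * u * x) := by
    have := gw_cont
    fun_prop
  rw [intervalIntegral.integral_eq_sub_of_hasDerivAt hd (hc.intervalIntegrable _ _)]
  have f1 : ∀ v : ℝ, 2 * Real.pi * v * (1 / 2) = Real.pi * v := fun v => by ring
  have f2 : ∀ v : ℝ, 2 * Real.pi * v * (-1 / 2) = -(Real.pi * v) := fun v => by ring
  rw [f1, f1, f1, f1, f1, f2, f2, f2, f2, f2]
  simp only [Real.sin_neg]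
  have g1 : Real.sin (Real.pi * (u + 1)) = -Real.sin (Real.pi * u) := by
    rw [mul_add, mul_one, Real.sin_add_pi]
  have g2 : Real.sin (Real.pi * (u - 1)) = -Real.sin (Real.pi * u) := by
    rw [mul_sub, mul_one, Real.sin_sub_pi]
  have g3 : Real.sin (Real.pi * (u + 2)) = Real.sin (Real.pi * u) := by
    rw [mul_add, mul_comm Real.pi 2, Real.sin_add_two_pi]
  have g4 : Real.sin (Real.pi * (u - 2)) = Real.sin (Real.pi * u) := by
    rw [mul_sub, mul_comm Real.pi 2, Real.sin_sub_two_pi]
  rw [g1, g2, g3, g4]
  have r1 : u / (u ^ 2 - 1) = (1 / (u - 1) + 1 / (u + 1)) / 2 := by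
    rw [show u ^ 2 - 1 = (u - 1) * (u + 1) by ring]; field_simp; ring
  have r2 : u / (4 - u ^ 2) = -(1 / (u - 2) + 1 / (u + 2)) / 2 := by
    rw [show 4 - u ^ 2 = -((u - 2) * (u + 2)) by ring]; field_simp; ring
  rw [r1, r2]
  field_simp
  ring

lemma phiR_zero : phiR 0 = 1 := by
  have h : phiR 0 = ∫ x in (-1 / 2 : ℝ)..(1 / 2), gw x := by
    unfold phiR
    refine intervalIntegral.integral_congr fun x _ => ?_
    simp
  rw [h, gw_mass]

lemma num_small {u : ℝ} (h0 : 0 ≤ u) (h1 : u ≤ 2 / 5) :
    1 - (4 * (1 / 2) * phiR u - 2 * (1 / 2) ^ 2) ≤ 0.504 * u - 0.0005 := by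
  have hpi := Real.pi_pos
  rcases h0.eq_or_lt with h | h
  · rw [← h, phiR_zero]; norm_num
  · rw [phiR_formula h (by intro h3; rw [h3] at h1; norm_num at h1)
      (by intro h3; rw [h3] at h1; norm_num at h1)]
    have hu2 : u ^ 2 ≤ 4 / 25 := by nlinarith
    have d1 : 0 < 1 - u ^ 2 := by linarith
    have d2 : 0 < 4 - u ^ 2 := by linarith
    have hs := Pool.Agent.W259.Nona.sin_ge_T3 (Real.pi * u) (by positivity)
    have hs1 : (1 - 1.645 * u ^ 2) * u ≤ Real.sin (Real.pi * u) / Real.pi := by
      rw [le_div_iff₀ hpi]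
      have hp2 : Real.pi ^ 2 ≤ 9.8697 := by
        have := Real.pi_lt_d6; nlinarith
      have e : Real.pi * u - (Real.pi * u) ^ 3 / 6 = (1 - Real.pi ^ 2 / 6 * u ^ 2) * u * Real.pi := by
        ring
      rw [e] at hs
      refine le_trans ?_ hs
      have : (1 - 1.645 * u ^ 2) ≤ 1 - Real.pi ^ 2 / 6 * u ^ 2 := by nlinarith [sq_nonneg u]
      gcongr
    have hb : (1 - 0.56 * u ^ 2) / u ≤ 1 / u + 47 / 100 * (u / (u ^ 2 - 1)) +
        3 / 20 * (u / (4 - u ^ 2)) := by
      have e1 : u / (u ^ 2 - 1) = -(u / (1 - u ^ 2)) := by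
        rw [← div_neg]; congr 1; ring
      rw [e1]
      have h3 : u / (1 - u ^ 2) ≤ 25 / 21 * u := by
        rw [div_le_iff₀ d1]
        nlinarith
      have h4 : 0 ≤ u / (4 - u ^ 2) := by positivity
      have e2 : (1 - 0.56 * u ^ 2) / u = 1 / u - 0.56 * u := by
        field_simp
      rw [e2]
      linarith
    have hb0 : 0 ≤ (1 - 0.56 * u ^ 2) / u := by
      apply div_nonneg _ h.le; nlinarith
    have hs0 : 0 ≤ Real.sin (Real.pi * u) / Real.pi := by
      refine le_trans ?_ hs1
      apply mul_nonneg _ h.le; nlinarith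
    have hprod : (1 - 1.645 * u ^ 2) * (1 - 0.56 * u ^ 2) ≤ Real.sin (Real.pi * u) / Real.pi *
        (1 / u + 47 / 100 * (u / (u ^ 2 - 1)) + 3 / 20 * (u / (4 - u ^ 2))) := by
      calc (1 - 1.645 * u ^ 2) * (1 - 0.56 * u ^ 2) =
          ((1 - 1.645 * u ^ 2) * u) * ((1 - 0.56 * u ^ 2) / u) := by field_simp
        _ ≤ Real.sin (Real.pi * u) / Real.pi * ((1 - 0.56 * u ^ 2) / u) :=
          mul_le_mul_of_nonneg_right hs1 hb0
        _ ≤ _ := mul_le_mul_of_nonneg_left hb hs0
    nlinarith [sq_nonneg (u ^ 2 - 0.16), mul_nonneg h0 (sub_nonneg.mpr h1)]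

lemma cos_node {w W s : ℝ} (hw : |w| ≤ W) (hW : W ≤ 1 / 2)
    (hs : s ≤ 1 - (3.1416 * W) ^ 2 / 2 + (3.1416 * W) ^ 4 / 24 - (3.1416 * W) ^ 6 / 720)
    (hs0 : 0 ≤ s) : s ≤ Real.cos (Real.pi * w) := by
  have hpi := Real.pi_pos
  have hW0 : 0 ≤ W := (abs_nonneg w).trans hw
  have h1 := Pool.Agent.W259.Nona.cos_ge_T6 (3.1416 * W) (by positivity)
  rw [← Real.cos_abs, abs_mul, abs_of_pos hpi]
  refine (hs.trans h1).trans ?_
  apply Real.cos_le_cos_of_nonneg_of_le_pi (by positivity)
  · have := Real.pi_gt_d6
    nlinarith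
  · have := Real.pi_lt_d6
    nlinarith [abs_nonneg w]

lemma piece {a b W s R u : ℝ} (ha : 1 < a) (hb : b < 2) (hW1 : |a - 3 / 2| ≤ W)
    (hW2 : |b - 3 / 2| ≤ W) (hW : W ≤ 1 / 2)
    (hs : s ≤ 1 - (3.1416 * W) ^ 2 / 2 + (3.1416 * W) ^ 4 / 24 - (3.1416 * W) ^ 6 / 720)
    (hs0 : 0 ≤ s) (hR0 : 0 ≤ R)
    (hR : R ≤ 1 / b + 47 / 100 * (b / (b ^ 2 - 1)) + 3 / 20 * (a / (4 - a ^ 2)))
    (hm : s * R ≤ 1.57) (hfin : 9.8697 * (1 - 0.504 * a + 0.0005) ≤ 2 * (s * R) ^ 2)
    (hau : a ≤ u) (hub : u ≤ b) :
    ∃ t : ℝ, |t| ≤ 1 / 2 ∧ 1 - (4 * t * phiR u - 2 * t ^ 2) ≤ 0.504 * u - 0.0005 := by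
  have hpi := Real.pi_pos
  have hp := Real.pi_gt_d6
  have hp2 : Real.pi ^ 2 ≤ 9.8697 := by
    have := Real.pi_lt_d6; nlinarith
  have hu1 : 1 < u := by linarith
  have hu2 : u < 2 := by linarith
  set m := s * R / Real.pi with hmdef
  have hm0 : 0 ≤ m := by positivity
  have hm1 : m ≤ 1 / 2 := by
    rw [hmdef, div_le_iff₀ hpi]; linarith
  refine ⟨-m, by rw [abs_neg, abs_of_nonneg hm0]; exact hm1, ?_⟩
  have hw : |u - 3 / 2| ≤ W := by
    rw [abs_le] at hW1 hW2 ⊢
    constructor
    · linarith [hW1.1]
    · linarith [hW2.2]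
  have hcos := cos_node hw hW hs hs0
  have hsin : Real.sin (Real.pi * u) = -Real.cos (Real.pi * (u - 3 / 2)) := by
    have : Real.pi * u = Real.pi * (u - 3 / 2) + Real.pi / 2 + Real.pi := by ring
    rw [this, Real.sin_add_pi, Real.sin_add_pi_div_two]
  have da : 0 < a ^ 2 - 1 := by nlinarith
  have du : 0 < u ^ 2 - 1 := by nlinarith
  have db : 0 < b ^ 2 - 1 := by nlinarith
  have ea : 0 < 4 - a ^ 2 := by nlinarith
  have eu : 0 < 4 - u ^ 2 := by nlinarith
  have k1 : 1 / b ≤ 1 / u := one_div_le_one_div_of_le (by linarith) hub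
  have k2 : b / (b ^ 2 - 1) ≤ u / (u ^ 2 - 1) := by
    rw [div_le_div_iff₀ db du]
    nlinarith [mul_nonneg (sub_nonneg.mpr hub) (by nlinarith : (0 : ℝ) ≤ u * b + 1)]
  have k3 : a / (4 - a ^ 2) ≤ u / (4 - u ^ 2) := by
    rw [div_le_div_iff₀ ea eu]
    nlinarith [mul_nonneg (sub_nonneg.mpr hau) (by nlinarith : (0 : ℝ) ≤ u * a + 4)]
  have hRr : R ≤ 1 / u + 47 / 100 * (u / (u ^ 2 - 1)) + 3 / 20 * (u / (4 - u ^ 2)) := by linarith
  have hphi : phiR u ≤ -m := by
    rw [phiR_formula (by linarith) hu1.ne' hu2.ne, hsin, hmdef]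
    have : s * R ≤ Real.cos (Real.pi * (u - 3 / 2)) *
        (1 / u + 47 / 100 * (u / (u ^ 2 - 1)) + 3 / 20 * (u / (4 - u ^ 2))) :=
      mul_le_mul hcos hRr hR0 (hs0.trans hcos)
    rw [neg_div, neg_mul, neg_le_neg_iff, div_mul_eq_mul_div]
    gcongr
  have hm2 : 1 - 0.504 * a + 0.0005 ≤ 2 * m ^ 2 := by
    rcases le_or_gt (1 - 0.504 * a + 0.0005) 0 with h | h
    · exact h.trans (by positivity)
    · rw [hmdef, div_pow, ← mul_div_assoc, le_div_iff₀ (by positivity)]
      refine le_trans ?_ hfin
      rw [mul_comm]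
      exact mul_le_mul_of_nonneg_right hp2 h.le
  have h5 : 4 * -m * phiR u ≥ 4 * m ^ 2 := by nlinarith
  nlinarith

theorem num_large {u : ℝ} (h : 1.249 ≤ u) :
    ∃ t : ℝ, |t| ≤ 1 / 2 ∧ 1 - (4 * t * phiR u - 2 * t ^ 2) ≤ 0.504 * u - 0.0005 := by
  rcases le_or_gt u (12500 / 10000) with h0 | h0
  · exact piece (a := 12490 / 10000) (b := 12500 / 10000) (W := 2510 / 10000) (s := 7048 / 10000) (R := 1921 / 1000)
      (by norm_num) (by norm_num) (by norm_num) (by norm_num) (by norm_num) (by norm_num)
      (by norm_num) (by norm_num) (by norm_num) (by norm_num) (by norm_num) (by linarith) h0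
  rcases le_or_gt u (12518 / 10000) with h1 | h1
  · exact piece (a := 12500 / 10000) (b := 12518 / 10000) (W := 2500 / 10000) (s := 7070 / 10000) (R := 1913 / 1000)
      (by norm_num) (by norm_num) (by norm_num) (by norm_num) (by norm_num) (by norm_num)
      (by norm_num) (by norm_num) (by norm_num) (by norm_num) (by norm_num) (by linarith) h1
  rcases le_or_gt u (12549 / 10000) with h2 | h2
  · exact piece (a := 12518 / 10000) (b := 12549 / 10000) (W := 2482 / 10000) (s := 7110 / 10000) (R := 1900 / 1000)
      (by norm_num) (by norm_num) (by norm_num) (by norm_num) (by norm_num) (by norm_num)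
      (by norm_num) (by norm_num) (by norm_num) (by norm_num) (by norm_num) (by linarith) h2
  rcases le_or_gt u (12602 / 10000) with h3 | h3
  · exact piece (a := 12549 / 10000) (b := 12602 / 10000) (W := 2451 / 10000) (s := 7178 / 10000) (R := 1878 / 1000)
      (by norm_num) (by norm_num) (by norm_num) (by norm_num) (by norm_num) (by norm_num)
      (by norm_num) (by norm_num) (by norm_num) (by norm_num) (by norm_num) (by linarith) h3
  rcases le_or_gt u (12693 / 10000) with h4 | h4
  · exact piece (a := 12602 / 10000) (b := 12693 / 10000) (W := 2398 / 10000) (s := 7293 / 10000) (R := 1842 / 1000)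
      (by norm_num) (by norm_num) (by norm_num) (by norm_num) (by norm_num) (by norm_num)
      (by norm_num) (by norm_num) (by norm_num) (by norm_num) (by norm_num) (by linarith) h4
  rcases le_or_gt u (12856 / 10000) with h5 | h5
  · exact piece (a := 12693 / 10000) (b := 12856 / 10000) (W := 2307 / 10000) (s := 7486 / 10000) (R := 1783 / 1000)
      (by norm_num) (by norm_num) (by norm_num) (by norm_num) (by norm_num) (by norm_num)
      (by norm_num) (by norm_num) (by norm_num) (by norm_num) (by norm_num) (by linarith) h5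
  rcases le_or_gt u (13157 / 10000) with h6 | h6
  · exact piece (a := 12856 / 10000) (b := 13157 / 10000) (W := 2144 / 10000) (s := 7815 / 10000) (R := 1688 / 1000)
      (by norm_num) (by norm_num) (by norm_num) (by norm_num) (by norm_num) (by norm_num)
      (by norm_num) (by norm_num) (by norm_num) (by norm_num) (by norm_num) (by linarith) h6
  rcases le_or_gt u (13740 / 10000) with h7 | h7
  · exact piece (a := 13157 / 10000) (b := 13740 / 10000) (W := 1843 / 10000) (s := 8369 / 10000) (R := 1542 / 1000)
      (by norm_num) (by norm_num) (by norm_num) (by norm_num) (by norm_num) (by norm_num)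
      (by norm_num) (by norm_num) (by norm_num) (by norm_num) (by norm_num) (by linarith) h7
  rcases le_or_gt u (14938 / 10000) with h8 | h8
  · exact piece (a := 13740 / 10000) (b := 14938 / 10000) (W := 1260 / 10000) (s := 9226 / 10000) (R := 1337 / 1000)
      (by norm_num) (by norm_num) (by norm_num) (by norm_num) (by norm_num) (by norm_num)
      (by norm_num) (by norm_num) (by norm_num) (by norm_num) (by norm_num) (by linarith) h8
  rcases le_or_gt u (16289 / 10000) with h9 | h9
  · exact piece (a := 14938 / 10000) (b := 16289 / 10000) (W := 1289 / 10000) (s := 9190 / 10000) (R := 1203 / 1000)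
      (by norm_num) (by norm_num) (by norm_num) (by norm_num) (by norm_num) (by norm_num)
      (by norm_num) (by norm_num) (by norm_num) (by norm_num) (by norm_num) (by linarith) h9
  rcases le_or_gt u (17077 / 10000) with h10 | h10
  · exact piece (a := 16289 / 10000) (b := 17077 / 10000) (W := 2077 / 10000) (s := 7945 / 10000) (R := 1185 / 1000)
      (by norm_num) (by norm_num) (by norm_num) (by norm_num) (by norm_num) (by norm_num)
      (by norm_num) (by norm_num) (by norm_num) (by norm_num) (by norm_num) (by linarith) h10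
  rcases le_or_gt u (17567 / 10000) with h11 | h11
  · exact piece (a := 17077 / 10000) (b := 17567 / 10000) (W := 2567 / 10000) (s := 6920 / 10000) (R := 1201 / 1000)
      (by norm_num) (by norm_num) (by norm_num) (by norm_num) (by norm_num) (by norm_num)
      (by norm_num) (by norm_num) (by norm_num) (by norm_num) (by norm_num) (by linarith) h11
  rcases le_or_gt u (17895 / 10000) with h12 | h12
  · exact piece (a := 17567 / 10000) (b := 17895 / 10000) (W := 2895 / 10000) (s := 6140 / 10000) (R := 1229 / 1000)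
      (by norm_num) (by norm_num) (by norm_num) (by norm_num) (by norm_num) (by norm_num)
      (by norm_num) (by norm_num) (by norm_num) (by norm_num) (by norm_num) (by linarith) h12
  rcases le_or_gt u (18131 / 10000) with h13 | h13
  · exact piece (a := 17895 / 10000) (b := 18131 / 10000) (W := 3131 / 10000) (s := 5539 / 10000) (R := 1260 / 1000)
      (by norm_num) (by norm_num) (by norm_num) (by norm_num) (by norm_num) (by norm_num)
      (by norm_num) (by norm_num) (by norm_num) (by norm_num) (by norm_num) (by linarith) h13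
  rcases le_or_gt u (18310 / 10000) with h14 | h14
  · exact piece (a := 18131 / 10000) (b := 18310 / 10000) (W := 3310 / 10000) (s := 5062 / 10000) (R := 1293 / 1000)
      (by norm_num) (by norm_num) (by norm_num) (by norm_num) (by norm_num) (by norm_num)
      (by norm_num) (by norm_num) (by norm_num) (by norm_num) (by norm_num) (by linarith) h14
  rcases le_or_gt u (18452 / 10000) with h15 | h15
  · exact piece (a := 18310 / 10000) (b := 18452 / 10000) (W := 3452 / 10000) (s := 4672 / 10000) (R := 1326 / 1000)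
      (by norm_num) (by norm_num) (by norm_num) (by norm_num) (by norm_num) (by norm_num)
      (by norm_num) (by norm_num) (by norm_num) (by norm_num) (by norm_num) (by linarith) h15
  rcases le_or_gt u (18569 / 10000) with h16 | h16
  · exact piece (a := 18452 / 10000) (b := 18569 / 10000) (W := 3569 / 10000) (s := 4344 / 10000) (R := 1360 / 1000)
      (by norm_num) (by norm_num) (by norm_num) (by norm_num) (by norm_num) (by norm_num)
      (by norm_num) (by norm_num) (by norm_num) (by norm_num) (by norm_num) (by linarith) h16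
  rcases le_or_gt u (18670 / 10000) with h17 | h17
  · exact piece (a := 18569 / 10000) (b := 18670 / 10000) (W := 3670 / 10000) (s := 4056 / 10000) (R := 1393 / 1000)
      (by norm_num) (by norm_num) (by norm_num) (by norm_num) (by norm_num) (by norm_num)
      (by norm_num) (by norm_num) (by norm_num) (by norm_num) (by norm_num) (by linarith) h17
  rcases le_or_gt u (18759 / 10000) with h18 | h18
  · exact piece (a := 18670 / 10000) (b := 18759 / 10000) (W := 3759 / 10000) (s := 3799 / 10000) (R := 1427 / 1000)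
      (by norm_num) (by norm_num) (by norm_num) (by norm_num) (by norm_num) (by norm_num)
      (by norm_num) (by norm_num) (by norm_num) (by norm_num) (by norm_num) (by linarith) h18
  rcases le_or_gt u (18839 / 10000) with h19 | h19
  · exact piece (a := 18759 / 10000) (b := 18839 / 10000) (W := 3839 / 10000) (s := 3565 / 10000) (R := 1463 / 1000)
      (by norm_num) (by norm_num) (by norm_num) (by norm_num) (by norm_num) (by norm_num)
      (by norm_num) (by norm_num) (by norm_num) (by norm_num) (by norm_num) (by linarith) h19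
  rcases le_or_gt u (18913 / 10000) with h20 | h20
  · exact piece (a := 18839 / 10000) (b := 18913 / 10000) (W := 3913 / 10000) (s := 3347 / 10000) (R := 1500 / 1000)
      (by norm_num) (by norm_num) (by norm_num) (by norm_num) (by norm_num) (by norm_num)
      (by norm_num) (by norm_num) (by norm_num) (by norm_num) (by norm_num) (by linarith) h20
  rcases le_or_gt u (18983 / 10000) with h21 | h21
  · exact piece (a := 18913 / 10000) (b := 18983 / 10000) (W := 3983 / 10000) (s := 3138 / 10000) (R := 1540 / 1000)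
      (by norm_num) (by norm_num) (by norm_num) (by norm_num) (by norm_num) (by norm_num)
      (by norm_num) (by norm_num) (by norm_num) (by norm_num) (by norm_num) (by linarith) h21
  rcases le_or_gt u (19050 / 10000) with h22 | h22
  · exact piece (a := 18983 / 10000) (b := 19050 / 10000) (W := 4050 / 10000) (s := 2938 / 10000) (R := 1583 / 1000)
      (by norm_num) (by norm_num) (by norm_num) (by norm_num) (by norm_num) (by norm_num)
      (by norm_num) (by norm_num) (by norm_num) (by norm_num) (by norm_num) (by linarith) h22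
  rcases le_or_gt u (19116 / 10000) with h23 | h23
  · exact piece (a := 19050 / 10000) (b := 19116 / 10000) (W := 4116 / 10000) (s := 2739 / 10000) (R := 1631 / 1000)
      (by norm_num) (by norm_num) (by norm_num) (by norm_num) (by norm_num) (by norm_num)
      (by norm_num) (by norm_num) (by norm_num) (by norm_num) (by norm_num) (by linarith) h23
  rcases le_or_gt u (19182 / 10000) with h24 | h24
  · exact piece (a := 19116 / 10000) (b := 19182 / 10000) (W := 4182 / 10000) (s := 2538 / 10000) (R := 1687 / 1000)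
      (by norm_num) (by norm_num) (by norm_num) (by norm_num) (by norm_num) (by norm_num)
      (by norm_num) (by norm_num) (by norm_num) (by norm_num) (by norm_num) (by linarith) h24
  rcases le_or_gt u (19250 / 10000) with h25 | h25
  · exact piece (a := 19182 / 10000) (b := 19250 / 10000) (W := 4250 / 10000) (s := 2331 / 10000) (R := 1751 / 1000)
      (by norm_num) (by norm_num) (by norm_num) (by norm_num) (by norm_num) (by norm_num)
      (by norm_num) (by norm_num) (by norm_num) (by norm_num) (by norm_num) (by linarith) h25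
  rcases le_or_gt u (19320 / 10000) with h26 | h26
  · exact piece (a := 19250 / 10000) (b := 19320 / 10000) (W := 4320 / 10000) (s := 2116 / 10000) (R := 1830 / 1000)
      (by norm_num) (by norm_num) (by norm_num) (by norm_num) (by norm_num) (by norm_num)
      (by norm_num) (by norm_num) (by norm_num) (by norm_num) (by norm_num) (by linarith) h26
  rcases le_or_gt u (19395 / 10000) with h27 | h27
  · exact piece (a := 19320 / 10000) (b := 19395 / 10000) (W := 4395 / 10000) (s := 1885 / 10000) (R := 1929 / 1000)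
      (by norm_num) (by norm_num) (by norm_num) (by norm_num) (by norm_num) (by norm_num)
      (by norm_num) (by norm_num) (by norm_num) (by norm_num) (by norm_num) (by linarith) h27
  rcases le_or_gt u (19475 / 10000) with h28 | h28
  · exact piece (a := 19395 / 10000) (b := 19475 / 10000) (W := 4475 / 10000) (s := 1637 / 10000) (R := 2061 / 1000)
      (by norm_num) (by norm_num) (by norm_num) (by norm_num) (by norm_num) (by norm_num)
      (by norm_num) (by norm_num) (by norm_num) (by norm_num) (by norm_num) (by linarith) h28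
  rcases le_or_gt u (19563 / 10000) with h29 | h29
  · exact piece (a := 19475 / 10000) (b := 19563 / 10000) (W := 4563 / 10000) (s := 1363 / 10000) (R := 2245 / 1000)
      (by norm_num) (by norm_num) (by norm_num) (by norm_num) (by norm_num) (by norm_num)
      (by norm_num) (by norm_num) (by norm_num) (by norm_num) (by norm_num) (by linarith) h29
  rcases le_or_gt u (19660 / 10000) with h30 | h30
  · exact piece (a := 19563 / 10000) (b := 19660 / 10000) (W := 4660 / 10000) (s := 1060 / 10000) (R := 2528 / 1000)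
      (by norm_num) (by norm_num) (by norm_num) (by norm_num) (by norm_num) (by norm_num)
      (by norm_num) (by norm_num) (by norm_num) (by norm_num) (by norm_num) (by linarith) h30
  rcases le_or_gt u (19766 / 10000) with h31 | h31
  · exact piece (a := 19660 / 10000) (b := 19766 / 10000) (W := 4766 / 10000) (s := 727 / 10000) (R := 3012 / 1000)
      (by norm_num) (by norm_num) (by norm_num) (by norm_num) (by norm_num) (by norm_num)
      (by norm_num) (by norm_num) (by norm_num) (by norm_num) (by norm_num) (by linarith) h31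
  rcases le_or_gt u (19881 / 10000) with h32 | h32
  · exact piece (a := 19766 / 10000) (b := 19881 / 10000) (W := 4881 / 10000) (s := 365 / 10000) (R := 4005 / 1000)
      (by norm_num) (by norm_num) (by norm_num) (by norm_num) (by norm_num) (by norm_num)
      (by norm_num) (by norm_num) (by norm_num) (by norm_num) (by norm_num) (by linarith) h32
  exact ⟨0, by norm_num, by norm_num at *; linarith⟩

end Pool.Agent.TH299.SW
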