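import Pool.Agent.TH299.SW.Chain
import Pool.Agent.TH299.SW.Num
import Pool.Agent.H295R2.SI.Main

/-!
Pairs of zeros in a window which is shorter than the mean spacing: the asymptotic form.
-/

open Complex Filter Topology Set MeasureTheory
open scoped BigOperators ComplexConjugate

namespace Pool.Agent.TH299.SW

open H370 H295SI Pool.Agent.W201

lemma phiR_even (u : ℝ) : phiR (-u) = phiR u := by
  unfold phiR
  refine intervalIntegral.integral_congr fun x _ => ?_
  show gw x * Real.cos (2 * Real.pi * -u * x) = gw x * Real.cos (2 * Real.pi * u * x)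
  rw [show 2 * Real.pi * -u * x = -(2 * Real.pi * u * x) by ring, Real.cos_neg]

lemma phiR_abs (u : ℝ) : |phiR u| ≤ 1 := by
  unfold phiR
  have h := intervalIntegral.abs_integral_le_integral_abs (μ := volume)
    (f := fun x => gw x * Real.cos (2 * Real.pi * u * x)) (show (-1 / 2 : ℝ) ≤ 1 / 2 by norm_num)
  refine h.trans ?_
  refine le_trans ?_ (le_of_eq gw_mass)
  apply intervalIntegral.integral_mono_on (by norm_num)
  · have := gw_cont
    exact (by fun_prop : Continuous fun x => |gw x * Real.cos (2 * Real.pi * u * x)|).intervalIntegrable _ _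
  · exact gw_cont.intervalIntegrable _ _
  · intro x _
    rw [abs_mul, abs_of_nonneg (gw_nonneg x)]
    have := Real.abs_cos_le_one (2 * Real.pi * u * x)
    have := gw_nonneg x
    nlinarith

lemma kap_re (r : ℝ) : (kapG gw (r : ℂ)).re = phiR (r / (2 * Real.pi)) := by
  have hpi := Real.pi_pos
  unfold kapG phiR
  have hc : Continuous fun x : ℝ => (gw x : ℂ) * cexp (I * r * x) := by
    have := gw_cont
    fun_prop
  have h := Complex.reCLM.intervalIntegral_comp_comm
    (hc.intervalIntegrable (μ := volume) (-1 / 2 : ℝ) (1 / 2))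
  simp only [Complex.reCLM_apply] at h
  rw [← h]
  refine intervalIntegral.integral_congr fun x _ => ?_
  show ((gw x : ℂ) * cexp (I * r * x)).re = gw x * Real.cos (2 * Real.pi * (r / (2 * Real.pi)) * x)
  have e : I * (r : ℂ) * x = ((r * x : ℝ) : ℂ) * I := by push_cast; ring
  rw [e, Complex.re_ofReal_mul, Complex.exp_ofReal_mul_I_re]
  congr 2
  field_simp

lemma phiG_re (Λ x y : ℝ) : (phiG gw Λ ((x : ℂ) - y)).re =
    phiR (Λ * (y - x) / (2 * Real.pi)) * Real.exp (-(y - x) ^ 2 / 8) := by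
  unfold phiG
  have e1 : (Λ : ℂ) * ((x : ℂ) - y) = ((Λ * (x - y) : ℝ) : ℂ) := by push_cast; ring
  have e2 : cexp (-((x : ℂ) - y) ^ 2 / 8) = ((Real.exp (-(y - x) ^ 2 / 8) : ℝ) : ℂ) := by
    rw [Complex.ofReal_exp]
    congr 1
    push_cast
    ring
  rw [e1, e2, Complex.re_mul_ofReal, kap_re]
  have e3 : Λ * (x - y) / (2 * Real.pi) = -(Λ * (y - x) / (2 * Real.pi)) := by ring
  rw [e3, phiR_even]

/-- the inequality for the allowed gaps -/
lemma allowed {σ θ Λ a b : ℝ} (hσ0 : 0 < σ) (hσ1 : σ ≤ 1 / 100) (hθ0 : 9999 / 10000 ≤ θ) (hθ1 : θ ≤ 1)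
    (hΛ : Λ * σ = 2 * Real.pi * θ) (ha : a ≤ 2 / 5 * σ) (hb : 1.2495 * σ ≤ b) (x y : ℝ) (hxy : x < y)
    (hw : ¬ (a < y - x ∧ y - x < b)) : ∃ t : ℝ, |t| ≤ 1 / 2 ∧
      1 - (4 * t * (phiG gw Λ ((x : ℂ) - y)).re - 2 * t ^ 2) ≤ 0.504 / σ * (y - x) := by
  have hpi := Real.pi_pos
  set G := (y - x) / σ with hG
  have hG0 : 0 < G := div_pos (by linarith) hσ0
  have hyx : y - x = G * σ := by rw [hG]; field_simp
  set u := Λ * (y - x) / (2 * Real.pi) with hu
  have huG : u = θ * G := by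
    rw [hu, hyx, show Λ * (G * σ) = G * (Λ * σ) by ring, hΛ]
    field_simp
  have hμ : 0.504 / σ * (y - x) = 0.504 * G := by rw [hyx]; field_simp
  rw [hμ]
  rcases le_or_gt 2 G with h2 | h2
  · exact ⟨0, by norm_num, by norm_num at *; linarith⟩
  · -- the Gaussian factor
    set E := Real.exp (-(y - x) ^ 2 / 8) with hE
    have hE1 : E ≤ 1 := Real.exp_le_one_iff.mpr (by
      have := sq_nonneg (y - x); linarith)
    have hE0 : 1 - 0.0001 ≤ E := by
      have h3 := Real.add_one_le_exp (-(y - x) ^ 2 / 8)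
      have h4 : (y - x) ^ 2 ≤ 0.0004 := by
        rw [hyx]
        have : G * σ ≤ 0.02 := by nlinarith
        have h0 : 0 ≤ G * σ := by positivity
        nlinarith
      norm_num at h4 ⊢
      linarith
    have main : ∃ t : ℝ, |t| ≤ 1 / 2 ∧ 1 - (4 * t * phiR u - 2 * t ^ 2) ≤ 0.504 * u - 0.0005 := by
      by_cases h5 : y - x ≤ a
      · refine ⟨1 / 2, by norm_num, num_small (by rw [huG]; positivity) ?_⟩
        have : G ≤ 2 / 5 := by
          rw [hG, div_le_iff₀ hσ0]; linarith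
        rw [huG]; nlinarith
      · have h6 : b ≤ y - x := by
          by_contra hcon
          exact hw ⟨by linarith, by linarith⟩
        have : 1.2495 ≤ G := by
          rw [hG, le_div_iff₀ hσ0]; linarith
        apply num_large
        rw [huG]; norm_num at *; nlinarith
    obtain ⟨t, ht, ht2⟩ := main
    refine ⟨t, ht, ?_⟩
    rw [phiG_re, ← hu, ← hE]
    have h7 : 4 * t * (phiR u * E) ≥ 4 * t * phiR u - 2 * (1 - E) := by
      have h8 : |t * phiR u| ≤ 1 / 2 * 1 := by
        rw [abs_mul]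
        exact mul_le_mul ht (phiR_abs u) (abs_nonneg _) (by norm_num)
      have h9 := (abs_le.mp h8).2
      have h10 : 0 ≤ 1 - E := by linarith
      nlinarith
    have h11 : 0.504 * u ≤ 0.504 * G := by
      rw [huG]; nlinarith
    norm_num at *
    linarith

theorem main_short {F : ℂ → ℂ} (hF : GoodL F) :
    ∃ d : ℝ, 0 < d ∧ d < 1 ∧ ∃ T0 : ℝ, 10 ≤ T0 ∧ ∀ T : ℝ, T0 ≤ T → ∀ H : ℝ,
      T ^ (1 - d) ≤ H → H ≤ T → ∃ S : Finset ℝ,
        (∀ x ∈ S, T < x ∧ x ≤ T + H ∧ (1 / 2 + I * x : ℂ) ∈ zset F T (T + H) ∧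
          mult F (1 / 2 + I * x) = 1) ∧
        ∀ a b : ℝ, a ≤ 2 / 5 * (2 * Real.pi / Real.log T) →
          1.2495 * (2 * Real.pi / Real.log T) ≤ b →
          0.0027 * (H / (2 * Real.pi) * Real.log T) ≤ PC S a b := by
  classical
  have hpi := Real.pi_pos
  have hpi4 := Real.pi_lt_d2
  have h9 : CountShort := H965SI.countShort
  have h11 : JJShort := H804JJ.jjShort H399SI.explShort Pool.Agent.H431R2.SI.outerShort
  obtain ⟨d, hd⟩ : ∃ d : ℝ, d = 1 / 1000000 := ⟨_, rfl⟩
  obtain ⟨η, hη⟩ : ∃ η : ℝ, η = 1 / 1000000 := ⟨_, rfl⟩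
  have hη0 : 0 < η := by rw [hη]; norm_num
  obtain ⟨T1, hT1, hPC⟩ := pairShort h9 h11 win_gw cv_Rw ksq_gw hF (1 - d) d η
    (by rw [hd]; norm_num) (by rw [hd]; norm_num) (by rw [hd]; norm_num) hη0
  have htop : Tendsto (fun T : ℝ => T ^ (1 - d)) atTop atTop :=
    tendsto_rpow_atTop (by rw [hd]; norm_num)
  obtain ⟨T2, hT2⟩ := (htop.eventually_ge_atTop 100000).exists_forall_of_atTop
  obtain ⟨T3, hT3⟩ := (Real.tendsto_log_atTop.eventually_ge_atTop (200 * Real.pi)).exists_forall_of_atTop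
  refine ⟨d, by rw [hd]; norm_num, by rw [hd]; norm_num, max (max T1 T2) (max T3 10),
    (le_max_right _ _).trans (le_max_right _ _), fun T hTT H hH hHT => ?_⟩
  have hTT1 : T1 ≤ T := ((le_max_left _ _).trans (le_max_left _ _)).trans hTT
  have hTT2 := hT2 T (((le_max_right _ _).trans (le_max_left _ _)).trans hTT)
  have hTT3 := hT3 T (((le_max_left _ _).trans (le_max_right _ _)).trans hTT)
  have hT10 : 10 ≤ T := ((le_max_right _ _).trans (le_max_right _ _)).trans hTT
  have hHK : 100000 ≤ H := hTT2.trans hH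
  have hlog : 0 < Real.log T := by
    have : 0 < 200 * Real.pi := by positivity
    linarith
  obtain ⟨U1, U2, hU1, hU1', hU2, hU2', hNN, hQQ⟩ := hPC T hTT1 H hH hHT
  set σ : ℝ := 2 * Real.pi / Real.log T with hσ
  have hσ0 : 0 < σ := by positivity
  have hσ1 : σ ≤ 1 / 100 := by
    rw [hσ, div_le_div_iff₀ hlog (by norm_num)]
    linarith
  set M : ℝ := H / (2 * Real.pi) * Real.log T with hM
  have hM0 : 0 < M := by positivity
  have hMσ : M = H / σ := by rw [hM, hσ]; field_simp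
  have hMH : H ≤ M := by
    rw [hMσ, le_div_iff₀ hσ0]
    nlinarith
  have hM1 : H * Real.log T / (2 * Real.pi) = M := by rw [hM]; ring
  have hM2 : H * Real.log T = 2 * Real.pi * M := by rw [hM]; field_simp
  rw [hM1] at hNN hQQ
  rw [hM2] at hNN
  have hU : 1 ≤ U1 := by linarith
  have hU12 : U1 ≤ U2 := by linarith
  have hθe : (1 - d - d : ℝ) = 999998 / 1000000 := by rw [hd]; norm_num
  rw [hθe] at hQQ
  set Λ : ℝ := 999998 / 1000000 * Real.log T with hΛ
  have hΛσ : Λ * σ = 2 * Real.pi * (999998 / 1000000) := by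
    rw [hΛ, hσ]; field_simp
  refine ⟨SF F U1 U2, ?_, ?_⟩
  · intro x hx
    have h1 := SF_mem hF hU hx
    have h2 := H344.mem_SF.mp hx
    have h3 := (mem_Zf hF hU).mp h2.1
    have him : (1 / 2 + I * (x : ℂ)).im = x := by simp
    refine ⟨by linarith [h1.1], by linarith [h1.2], ⟨h3.1, h3.2.1, ?_, ?_, h3.2.2.2.2⟩, h2.2⟩
    · rw [him]; linarith [h1.1]
    · rw [him]; linarith [h1.2]
  · intro a b ha hb
    have h1 := windowG hF hU hU12 win_gw (Λ := Λ) (μ := 0.504 / σ) (a := a) (b := b) (by positivity)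
      (allowed hσ0 hσ1 (by norm_num) (by norm_num) hΛσ ha hb)
    refine le_trans ?_ h1
    have h2 := (abs_le.mp hNN).1
    have h3 : U2 - U1 ≤ H := by linarith
    have h4 : 0.504 / σ * (U2 - U1) ≤ 0.504 * M := by
      have : 0.504 / σ * (U2 - U1) ≤ 0.504 / σ * H := mul_le_mul_of_nonneg_left h3 (by positivity)
      have e : 0.504 / σ * H = 0.504 * M := by rw [hMσ]; ring
      linarith
    have hI0 : 0 ≤ ∫ α in (0 : ℝ)..1, α * Rw α :=
      intervalIntegral.integral_nonneg zero_le_one fun α hα => mul_nonneg hα.1 (Rw_nonneg α)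
    have hcR : cR Rw (999998 / 1000000) ≤ 1.49313 := by
      have h5 := cR_one
      unfold cR
      rw [Rw_zero] at h5 ⊢
      norm_num at h5 ⊢
      linarith
    have h9 : M * (cR Rw (999998 / 1000000) + η) ≤ M * (1.49313 + η) :=
      mul_le_mul_of_nonneg_left (by linarith) hM0.le
    have h10 : η * (2 * Real.pi * M) ≤ 1 / 100000 * M := by
      have e : η * (2 * Real.pi * M) = (η * (2 * Real.pi)) * M := by ring
      rw [e]
      apply mul_le_mul_of_nonneg_right _ hM0.le
      rw [hη]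
      norm_num at hpi4 ⊢
      linarith
    have h12 : M * (1.49313 + η) = 1.49313 * M + 0.000001 * M := by rw [hη]; ring
    have h13 : (1 : ℝ) ≤ 1 / 100000 * M := by linarith
    have hQ : QQG gw F Λ U1 U2 ≤ 1.49313 * M + 0.000001 * M := hQQ.trans (h9.trans (le_of_eq h12))
    have h14 : (NN F U1 U2 : ℝ) ≥ M - 1 / 100000 * M := by linarith only [h2, h10]
    have h15 : 0.0027 * M ≤ 2 * (M - 1 / 100000 * M) - (1.49313 * M + 0.000001 * M) -
        (1 / 100000 * M + 0.504 * M) := by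
      have : 0 ≤ M := hM0.le
      norm_num
      linarith
    linarith only [h15, h14, hQ, h4, h13]

end Pool.Agent.TH299.SW
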