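import Pool.Agent.H345R2.A2.VVl
import Pool.Agent.H228R2.SIPair
import Pool.Agent.H613R2.PairShort

/-!
The pair sum on short intervals for a window whose self-convolution need not be decreasing
(adapted from `H613R2.PairShort` and `H228R2.SIPair`).
-/

open Complex Filter Topology Set MeasureTheory
open scoped BigOperators ComplexConjugate

namespace Pool.Agent.TH299.SW

open H370 H295SI H613SI

/-! copied from `H345R2.A2.Lin` -/

/-- the hat function -/
noncomputable def hatf (β : ℝ) : ℝ := max 0 (1 - |β|)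

lemma hatf_nonneg (β : ℝ) : 0 ≤ hatf β := le_max_left _ _

lemma hatf_lip (x y : ℝ) : |hatf x - hatf y| ≤ |x - y| := by
  unfold hatf
  have h1 := abs_max_sub_max_le_abs (1 - |x|) (1 - |y|) 0
  rw [max_comm, max_comm 0 (1 - |y|)]
  refine h1.trans ?_
  have : 1 - |x| - (1 - |y|) = |y| - |x| := by ring
  rw [this]
  refine (abs_abs_sub_abs_le_abs_sub y x).trans ?_
  rw [abs_sub_comm]

lemma hatf_even (β : ℝ) : hatf (-β) = hatf β := by unfold hatf; rw [abs_neg]

lemma hatf_zero {β : ℝ} (h : 1 ≤ |β|) : hatf β = 0 := max_eq_left (by linarith)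

lemma hatf_eq {β : ℝ} (h0 : 0 ≤ β) (h1 : β ≤ 1) : hatf β = 1 - β := by
  unfold hatf
  rw [abs_of_nonneg h0]
  exact max_eq_right (by linarith)

/-- adding a multiple of the hat function makes a test function decreasing -/
lemma conv_add {φ : ℝ → ℝ} {K K' : ℝ} (hK : 0 ≤ K) (hK' : K ≤ K') (hK0 : 0 < K')
    (hlip : ∀ x y, |φ x - φ y| ≤ K * |x - y|) (heven : ∀ x, φ (-x) = φ x)
    (hz : ∀ x, 1 ≤ |x| → φ x = 0) : Conv (fun β => φ β + K' * hatf β) := by
  have hb : ∀ x, |φ x| ≤ K * hatf x := by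
    have h0 : ∀ x, 0 ≤ x → |φ x| ≤ K * hatf x := by
      intro x hx
      rcases le_or_gt 1 x with h | h
      · rw [hz x (by rw [abs_of_nonneg hx]; exact h), hatf_zero (by rw [abs_of_nonneg hx]; exact h)]
        simp
      · rw [hatf_eq hx h.le]
        have h1 := hlip x 1
        rw [hz 1 (by simp), sub_zero, abs_sub_comm x 1, abs_of_pos (by linarith : (0 : ℝ) < 1 - x)] at h1
        exact h1
    intro x
    rcases le_total 0 x with h | h
    · exact h0 x h
    · have h1 := h0 (-x) (by linarith)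
      rw [heven, hatf_even] at h1
      exact h1
  refine ⟨?_, ?_, ?_, ?_, ?_⟩
  · intro α
    have h1 := neg_abs_le (φ α)
    have h2 := hb α
    have h3 := hatf_nonneg α
    show 0 ≤ φ α + K' * hatf α
    nlinarith
  · intro x hx y hy hxy
    simp only [Set.mem_Ici] at hx hy
    show φ y + K' * hatf y ≤ φ x + K' * hatf x
    rcases le_or_gt y 1 with h | h
    · rw [hatf_eq hx (hxy.trans h), hatf_eq hy h]
      have h1 := (abs_le.1 (hlip x y)).1
      rw [abs_sub_comm x y, abs_of_nonneg (sub_nonneg.2 hxy)] at h1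
      nlinarith
    · have hy1 : 1 ≤ |y| := by rw [abs_of_nonneg hy]; exact h.le
      rw [hz y hy1, hatf_zero hy1]
      have h1 := neg_abs_le (φ x)
      have h2 := hb x
      have h3 := hatf_nonneg x
      nlinarith
  · refine ⟨K + K', by linarith, fun x y => ?_⟩
    have h1 := hlip x y
    have h2 := hatf_lip x y
    have e : (φ x + K' * hatf x) - (φ y + K' * hatf y) = (φ x - φ y) + K' * (hatf x - hatf y) := by
      ring
    show |(φ x + K' * hatf x) - (φ y + K' * hatf y)| ≤ (K + K') * |x - y|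
    rw [e]
    calc |(φ x - φ y) + K' * (hatf x - hatf y)| ≤ |φ x - φ y| + |K' * (hatf x - hatf y)| :=
          abs_add_le _ _
      _ = |φ x - φ y| + K' * |hatf x - hatf y| := by rw [abs_mul, abs_of_pos hK0]
      _ ≤ K * |x - y| + K' * |x - y| := by gcongr
      _ = _ := by ring
  · intro α
    show φ (-α) + K' * hatf (-α) = φ α + K' * hatf α
    rw [heven, hatf_even]
  · intro α hα
    have h1 : 1 ≤ |α| := by rw [abs_of_pos (by linarith)]; exact hα.le
    show φ α + K' * hatf α = 0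
    rw [hz α h1, hatf_zero h1]
    ring


/-- basic properties of a self-convolution, without monotonicity -/
structure CV (R : ℝ → ℝ) : Prop where
  nonneg : ∀ α, 0 ≤ R α
  le0 : ∀ α, R α ≤ R 0
  lip : ∃ K : ℝ, 0 < K ∧ ∀ x y, |R x - R y| ≤ K * |x - y|
  even : ∀ α, R (-α) = R α
  zero : ∀ α, 1 ≤ |α| → R α = 0

lemma cv_cont {R : ℝ → ℝ} (hR : CV R) : Continuous R := by
  obtain ⟨K, hK, h⟩ := hR.lip
  have : LipschitzWith ⟨K, hK.le⟩ R := LipschitzWith.of_dist_le_mul fun x y => by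
    rw [Real.dist_eq, Real.dist_eq]
    exact h x y
  exact this.continuous

lemma lam_smooth {R : ℝ → ℝ} (hR : CV R) : ∃ C : ℝ, 0 < C ∧ ∀ Λ : ℝ, 1 ≤ Λ →
    ∫ u in (0 : ℝ)..Λ, R (u / Λ) * VV u ≤
      Real.sqrt Real.pi * Λ ^ 2 * (∫ α in (0 : ℝ)..1, α * R α) + C * Λ := by
  obtain ⟨K, hK, hlip⟩ := hR.lip
  have hc1 : Conv (fun β => R β + K * hatf β) :=
    conv_add hK.le le_rfl hK hlip hR.even hR.zero
  have hc2 : Conv (fun β => (fun _ => (0 : ℝ)) β + K * hatf β) :=
    conv_add le_rfl hK.le hK (by simp) (by simp) (by simp)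
  obtain ⟨C1, hC1, h1⟩ := H627SI.lamSmooth _ hc1
  obtain ⟨C2, hC2, h2⟩ := H370.A2.lam_lower hc2
  have hRc := cv_cont hR
  have hhc : Continuous hatf := by unfold hatf; fun_prop
  refine ⟨C1 + C2, by positivity, fun Λ hΛ => ?_⟩
  have hΛ0 : 0 < Λ := by linarith
  have a1 := h1 Λ hΛ
  have a2 := h2 Λ hΛ
  simp only [zero_add] at a2
  have hVc : ContinuousOn VV (Set.uIcc 0 Λ) := (VV_cont Λ).mono (by
    intro u hu
    rw [Set.uIcc_of_le hΛ0.le] at hu
    exact hu.2)
  have i1 : IntervalIntegrable (fun u : ℝ => R (u / Λ) * VV u) volume 0 Λ :=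
    ((hRc.comp (continuous_id.div_const Λ)).continuousOn.mul hVc).intervalIntegrable
  have i2 : IntervalIntegrable (fun u : ℝ => K * hatf (u / Λ) * VV u) volume 0 Λ :=
    (((continuous_const.mul (hhc.comp (continuous_id.div_const Λ))).continuousOn).mul
      hVc).intervalIntegrable
  have e1 : ∫ u in (0 : ℝ)..Λ, (R (u / Λ) + K * hatf (u / Λ)) * VV u =
      (∫ u in (0 : ℝ)..Λ, R (u / Λ) * VV u) + ∫ u in (0 : ℝ)..Λ, K * hatf (u / Λ) * VV u := by
    rw [← intervalIntegral.integral_add i1 i2]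
    refine intervalIntegral.integral_congr fun u _ => ?_
    show (R (u / Λ) + K * hatf (u / Λ)) * VV u = _
    ring
  have e2 : ∫ α in (0 : ℝ)..1, α * (R α + K * hatf α) =
      (∫ α in (0 : ℝ)..1, α * R α) + ∫ α in (0 : ℝ)..1, α * (K * hatf α) := by
    have j1 : IntervalIntegrable (fun α : ℝ => α * R α) volume 0 1 :=
      (continuous_id.mul hRc).intervalIntegrable _ _
    have j2 : IntervalIntegrable (fun α : ℝ => α * (K * hatf α)) volume 0 1 :=
      (continuous_id.mul (continuous_const.mul hhc)).intervalIntegrable _ _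
    rw [← intervalIntegral.integral_add j1 j2]
    refine intervalIntegral.integral_congr fun u _ => ?_
    show u * (R u + K * hatf u) = u * R u + u * (K * hatf u)
    ring
  rw [e1, e2] at a1
  have e3 : Real.sqrt Real.pi * Λ ^ 2 * ((∫ α in (0 : ℝ)..1, α * R α) +
      ∫ α in (0 : ℝ)..1, α * (K * hatf α)) = Real.sqrt Real.pi * Λ ^ 2 *
      (∫ α in (0 : ℝ)..1, α * R α) + Real.sqrt Real.pi * Λ ^ 2 *
      ∫ α in (0 : ℝ)..1, α * (K * hatf α) := by ring
  rw [e3] at a1
  have e4 : (C1 + C2) * Λ = C1 * Λ + C2 * Λ := by ring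
  rw [e4]
  linarith

lemma a1_aux {R : ℝ → ℝ} (hR : CV R) (b : ℝ) (hb : 0 < b) :
    ∫ α in (0 : ℝ)..1, R α * Real.exp (-(b * α) ^ 2) ≤ R 0 * (Real.sqrt Real.pi / (2 * b)) := by
  have hRc := cv_cont hR
  have hR0 : 0 ≤ R 0 := hR.nonneg 0
  calc ∫ α in (0 : ℝ)..1, R α * Real.exp (-(b * α) ^ 2) ≤
      ∫ α in (0 : ℝ)..1, R 0 * Real.exp (-(b ^ 2) * α ^ 2) := by
        refine intervalIntegral.integral_mono_on zero_le_one
          ((by fun_prop : Continuous fun α : ℝ =>
            R α * Real.exp (-(b * α) ^ 2)).intervalIntegrable _ _)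
          ((by fun_prop : Continuous fun α : ℝ =>
            R 0 * Real.exp (-(b ^ 2) * α ^ 2)).intervalIntegrable _ _) fun α hα => ?_
        have h1 := hR.le0 α
        have h2 : -(b * α) ^ 2 = -(b ^ 2) * α ^ 2 := by ring
        rw [h2]
        gcongr
    _ = R 0 * ∫ α in (0 : ℝ)..1, Real.exp (-(b ^ 2) * α ^ 2) :=
        intervalIntegral.integral_const_mul _ _
    _ ≤ R 0 * (Real.sqrt (Real.pi / b ^ 2) / 2) := by
        gcongr
        exact gauss01' (b ^ 2) (by positivity)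
    _ = _ := by
        rw [Real.sqrt_div Real.pi_pos.le, Real.sqrt_sq hb.le]
        field_simp

lemma a2_aux {R : ℝ → ℝ} (hR : CV R) (b : ℝ) (hb : 0 < b) :
    ∫ α in (0 : ℝ)..1, R α * Real.exp (2 * (b * α) - (b * α) ^ 2 / 2) ≤
        R 0 * (Real.exp 4 * Real.sqrt Real.pi) / b := by
  have hRc := cv_cont hR
  have hR0 : 0 ≤ R 0 := hR.nonneg 0
  calc ∫ α in (0 : ℝ)..1, R α * Real.exp (2 * (b * α) - (b * α) ^ 2 / 2) ≤
      ∫ α in (0 : ℝ)..1, R 0 * Real.exp 4 * Real.exp (-(b ^ 2 / 4) * α ^ 2) := by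
        refine intervalIntegral.integral_mono_on zero_le_one
          ((by fun_prop : Continuous fun α : ℝ =>
            R α * Real.exp (2 * (b * α) - (b * α) ^ 2 / 2)).intervalIntegrable _ _)
          ((by fun_prop : Continuous fun α : ℝ =>
            R 0 * Real.exp 4 * Real.exp (-(b ^ 2 / 4) * α ^ 2)).intervalIntegrable _ _)
          fun α hα => ?_
        have h1 := hR.le0 α
        have h2 := exp_aux b α
        calc R α * Real.exp (2 * (b * α) - (b * α) ^ 2 / 2) ≤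
            R 0 * (Real.exp 4 * Real.exp (-(b ^ 2 / 4) * α ^ 2)) := by gcongr
          _ = _ := by ring
    _ = R 0 * Real.exp 4 * ∫ α in (0 : ℝ)..1, Real.exp (-(b ^ 2 / 4) * α ^ 2) :=
        intervalIntegral.integral_const_mul _ _
    _ ≤ R 0 * Real.exp 4 * (Real.sqrt (Real.pi / (b ^ 2 / 4)) / 2) := by
        gcongr
        exact gauss01' (b ^ 2 / 4) (by positivity)
    _ = _ := by
        have : b ^ 2 / 4 = (b / 2) ^ 2 := by ring
        rw [this, Real.sqrt_div Real.pi_pos.le, Real.sqrt_sq (by positivity)]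
        field_simp

lemma a3_aux {R : ℝ → ℝ} (hR : CV R) : ∃ C : ℝ, 0 < C ∧ ∀ b : ℝ, 1 ≤ b →
    ∫ α in (0 : ℝ)..1, R α * VV (b * α) ≤
      Real.sqrt Real.pi * b * (∫ α in (0 : ℝ)..1, α * R α) + C := by
  obtain ⟨C4, hC4, hlam⟩ := lam_smooth hR
  refine ⟨C4, hC4, fun b hb => ?_⟩
  have hb0 : 0 < b := by linarith
  have h1 := hlam b hb
  have h2 : ∫ α in (0 : ℝ)..1, R α * VV (b * α) =
      b⁻¹ * ∫ u in (0 : ℝ)..b, R (u / b) * VV u := by
    have h3 := intervalIntegral.integral_comp_mul_left (a := (0 : ℝ)) (b := 1)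
      (fun u => R (u / b) * VV u) (c := b) hb0.ne'
    rw [mul_zero, mul_one, smul_eq_mul] at h3
    rw [← h3]
    refine intervalIntegral.integral_congr fun α _ => ?_
    show R α * VV (b * α) = R (b * α / b) * VV (b * α)
    rw [mul_div_cancel_left₀ _ hb0.ne']
  rw [h2]
  set I1 := ∫ α in (0 : ℝ)..1, α * R α
  calc b⁻¹ * ∫ u in (0 : ℝ)..b, R (u / b) * VV u ≤
      b⁻¹ * (Real.sqrt Real.pi * b ^ 2 * I1 + C4 * b) := by
        gcongr
    _ = _ := by field_simp

theorem qqJJ {g R : ℝ → ℝ} (hR : CV R) (hK : KSq g R) {F : ℂ → ℂ} (hF : GoodL F) {U1 U2 : ℝ}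
    (hU : 1 ≤ U1) (Λ : ℝ) : QQG g F Λ U1 U2 =
    2 / Real.sqrt Real.pi * ∫ α in (0 : ℝ)..1, R α * JJ F U1 U2 (Λ * α) := by
  have hpi : (Real.sqrt Real.pi : ℂ) ≠ 0 := by
    rw [Ne, Complex.ofReal_eq_zero]; positivity
  have h1 : ∀ s s' : ℂ, (phiG g Λ (zz s - zz s')) ^ 2 = ∫ α in (-1 : ℝ)..1, (R α : ℂ) *
      (cexp (I * ((Λ * α : ℝ) : ℂ) * (zz s - zz s')) * cexp (-(zz s - zz s') ^ 2 / 4)) := by
    intro s s'
    unfold phiG
    rw [mul_pow, hK, ← intervalIntegral.integral_mul_const]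
    refine intervalIntegral.integral_congr fun α _ => ?_
    rw [← Complex.exp_nat_mul]
    have e1 : I * (Λ * (zz s - zz s')) * (α : ℂ) = I * ((Λ * α : ℝ) : ℂ) * (zz s - zz s') := by
      push_cast; ring
    have e2 : ((2 : ℕ) : ℂ) * (-(zz s - zz s') ^ 2 / 8) = -(zz s - zz s') ^ 2 / 4 := by
      push_cast; ring
    rw [e1, e2]; ring
  have h2 : ∑ s ∈ Zf F U1 U2, ∑ s' ∈ Zf F U1 U2,
      (mult F s : ℂ) * (mult F s' : ℂ) * (phiG g Λ (zz s - zz s')) ^ 2 =
      ∫ α in (-1 : ℝ)..1, ((1 / Real.sqrt Real.pi * (R α * JJ F U1 U2 (Λ * α)) : ℝ) : ℂ) := by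
    have h3 : ∀ α : ℝ, ((1 / Real.sqrt Real.pi * (R α * JJ F U1 U2 (Λ * α)) : ℝ) : ℂ) =
        ∑ s ∈ Zf F U1 U2, ∑ s' ∈ Zf F U1 U2, (mult F s : ℂ) * (mult F s' : ℂ) * ((R α : ℂ) *
      (cexp (I * ((Λ * α : ℝ) : ℂ) * (zz s - zz s')) * cexp (-(zz s - zz s') ^ 2 / 4))) := by
      intro α
      rw [Complex.ofReal_mul, Complex.ofReal_mul, JJ_eq hF hU, Finset.mul_sum, Finset.mul_sum,
        Finset.mul_sum]
      refine Finset.sum_congr rfl fun s _ => ?_
      rw [Finset.mul_sum, Finset.mul_sum, Finset.mul_sum]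
      refine Finset.sum_congr rfl fun s' _ => ?_
      push_cast
      field_simp
    simp_rw [h3]
    have hc : ∀ s s' : ℂ, Continuous fun α : ℝ => (mult F s : ℂ) * (mult F s' : ℂ) * ((R α : ℂ) *
      (cexp (I * ((Λ * α : ℝ) : ℂ) * (zz s - zz s')) * cexp (-(zz s - zz s') ^ 2 / 4))) := by
      intro s s'
      have := cv_cont hR
      fun_prop
    rw [intervalIntegral.integral_finsetSum]
    swap
    · intro s _
      exact (continuous_finsetSum _ fun s' _ => hc s s').intervalIntegrable _ _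
    refine Finset.sum_congr rfl fun s _ => ?_
    rw [intervalIntegral.integral_finsetSum]
    swap
    · intro s' _
      exact (hc s s').intervalIntegrable _ _
    refine Finset.sum_congr rfl fun s' _ => ?_
    rw [h1, intervalIntegral.integral_const_mul]
  rw [H228SI.QQG_eq hF hU, h2, intervalIntegral.integral_ofReal, Complex.ofReal_re,
    intervalIntegral.integral_const_mul]
  set G : ℝ → ℝ := fun α => R α * JJ F U1 U2 (Λ * α) with hG
  have hGc : Continuous G := (cv_cont hR).mul ((JJ_cont hF hU).comp (by fun_prop))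
  have hGe : ∀ α, G (-α) = G α := by
    intro α
    simp only [hG]
    rw [hR.even, mul_neg, JJ_even hF hU]
  have h4 : ∫ α in (-1 : ℝ)..1, G α = 2 * ∫ α in (0 : ℝ)..1, G α := by
    rw [← intervalIntegral.integral_add_adjacent_intervals (b := 0)
      (hGc.intervalIntegrable _ _) (hGc.intervalIntegrable _ _)]
    have h5 : ∫ α in (-1 : ℝ)..0, G α = ∫ α in (0 : ℝ)..1, G α := by
      have := intervalIntegral.integral_comp_neg (a := (0 : ℝ)) (b := 1) G
      simp_rw [hGe] at this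
      rw [neg_zero] at this
      exact this.symm
    rw [h5]; ring
  rw [h4]; ring



theorem pairShort (h9 : CountShort) (h11 : JJShort) {g R : ℝ → ℝ} (hg : Win g) (hR : CV R)
    (hK : KSq g R) {F : ℂ → ℂ} (hF : GoodL F) (h ε η : ℝ) (hε : 0 < ε) (hεh : ε < h) (hh : h ≤ 1)
    (hη : 0 < η) :
    ∃ T0 : ℝ, 10 ≤ T0 ∧ ∀ T : ℝ, T0 ≤ T → ∀ H : ℝ, T ^ h ≤ H → H ≤ T →
    ∃ U1 U2 : ℝ, T ≤ U1 ∧ U1 ≤ T + 1 ∧ T + H - 1 ≤ U2 ∧ U2 ≤ T + H ∧
      |(NN F U1 U2 : ℝ) - H * Real.log T / (2 * Real.pi)| ≤ η * (H * Real.log T) ∧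
      QQG g F ((h - ε) * Real.log T) U1 U2 ≤ (H * Real.log T / (2 * Real.pi)) *
        (cR R (h - ε) + η) := by
  set I1 := ∫ α in (0 : ℝ)..1, α * R α with hI1
  have hI10 : 0 ≤ I1 := intervalIntegral.integral_nonneg zero_le_one fun α hα =>
    mul_nonneg hα.1 (hR.nonneg α)
  have hR0 : 0 ≤ R 0 := hR.nonneg 0
  have hh0 : 0 < h := hε.trans hεh
  set κ : ℝ := h - ε with hκ
  have hκ0 : 0 < κ := by linarith
  set Q0 := R 0 / κ + 2 * κ * I1 with hQ0
  have hQ00 : 0 ≤ Q0 := by positivity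
  have hcR : cR R κ = Q0 := rfl
  -- choose η'
  set θ : ℝ := min 1 (η / (14 * (Q0 + 1))) with hθ
  have hθ0 : 0 < θ := lt_min one_pos (by positivity)
  have hθ1 : θ ≤ 1 := min_le_left _ _
  have hθ2 : 7 * θ * Q0 ≤ η / 2 := by
    have h1 : θ ≤ η / (14 * (Q0 + 1)) := min_le_right _ _
    rw [le_div_iff₀ (by positivity)] at h1
    nlinarith
  obtain ⟨K1, K2, T0, hK1, hK2, hT0, hJ⟩ := h11 F hF h ε θ hε hεh hh hθ0
  obtain ⟨C4, hC4, ha3'⟩ := a3_aux hR
  obtain ⟨C5, hC5, hNN⟩ := h9 F hF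
  -- the constant K5
  set spi := Real.sqrt Real.pi with hspi
  have hspi0 : 0 < spi := Real.sqrt_pos.mpr Real.pi_pos
  set K5 : ℝ := 2 / spi * ((1 + θ) / (2 * Real.pi) * (K1 * (R 0 * (Real.exp 4 * spi)) / κ +
    (1 + θ) ^ 2 * C4) + K2 * R 0) with hK5
  have hK50 : 0 ≤ K5 := by positivity
  have evL : ∀ᶠ T : ℝ in atTop, (4 * Real.pi * K5 / η ≤ Real.log T ∧ 2 * C5 / η ≤ Real.log T ∧
      1 / κ ≤ Real.log T) ∧ ((Real.log T) ^ 2 ≤ T ^ h ∧ 3 ≤ T ^ h) :=
    ((Real.tendsto_log_atTop.eventually_ge_atTop _).and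
      ((Real.tendsto_log_atTop.eventually_ge_atTop _).and
        (Real.tendsto_log_atTop.eventually_ge_atTop _))).and (ev_pow h hh0)
  obtain ⟨T6, hT6⟩ := evL.exists_forall_of_atTop
  refine ⟨max T0 T6, hT0.trans (le_max_left _ _), fun T hT H hH1 hH2 => ?_⟩
  have hTT0 : T0 ≤ T := (le_max_left _ _).trans hT
  obtain ⟨⟨hL5, hL6, hL2⟩, hLT, h3T⟩ := hT6 T ((le_max_right _ _).trans hT)
  obtain ⟨U1, U2, hU1, hU1', hU2', hU2, hJb⟩ := hJ T hTT0 H hH1 hH2
  have hT10 : 10 ≤ T := hT0.trans hTT0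
  have hU : 1 ≤ U1 := by linarith
  have hH3 : 3 ≤ H := h3T.trans hH1
  have hHpos : 0 < H := by linarith
  set L := Real.log T with hL
  have hLpos : 0 < L := lt_of_lt_of_le (by positivity) hL2
  refine ⟨U1, U2, hU1, hU1', hU2', hU2, ?_, ?_⟩
  · refine ((hNN T hT10 H hH3 hH2 U1 U2 hU1 hU1' hU2' hU2).1).trans ?_
    exact nn_aux C5 η H L hC5 hHpos.le hη hL6 (hLT.trans hH1)
  · set Λ := κ * L with hΛ
    have hΛ1 : 1 ≤ Λ := by
      rw [div_le_iff₀ hκ0] at hL2
      rw [hΛ]; linarith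
    have hΛ0 : 0 < Λ := by linarith
    rw [hcR, qqJJ hR hK hF hU Λ]
    -- bound the integral
    have hRc := cv_cont hR
    have hVc : ContinuousOn (fun α : ℝ => VV (Λ * α)) (Set.uIcc 0 1) := by
      refine (VV_cont Λ).comp (by fun_prop) ?_
      intro α hα
      rw [Set.uIcc_of_le zero_le_one] at hα
      simp only [Set.mem_Iic]
      nlinarith [hα.2]
    have hint1 : IntervalIntegrable (fun α : ℝ => R α * Real.exp (-(Λ * α) ^ 2)) volume 0 1 :=
      (by fun_prop : Continuous fun α : ℝ => R α * Real.exp (-(Λ * α) ^ 2)).intervalIntegrable _ _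
    have hint2 : IntervalIntegrable (fun α : ℝ => R α * Real.exp (2 * (Λ * α) - (Λ * α) ^ 2 / 2))
        volume 0 1 :=
      (by fun_prop : Continuous fun α : ℝ =>
        R α * Real.exp (2 * (Λ * α) - (Λ * α) ^ 2 / 2)).intervalIntegrable _ _
    have hint3 : IntervalIntegrable (fun α : ℝ => R α * VV (Λ * α)) volume 0 1 :=
      (hRc.continuousOn.mul hVc).intervalIntegrable
    have hint4 : IntervalIntegrable R volume 0 1 := hRc.intervalIntegrable _ _
    have hb : ∫ α in (0 : ℝ)..1, R α * JJ F U1 U2 (Λ * α) ≤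
        ∫ α in (0 : ℝ)..1, ((1 + θ) / (2 * Real.pi) * (H * L ^ 2) * (R α * Real.exp (-(Λ * α) ^ 2)) +
          (1 + θ) / (2 * Real.pi) * (K1 * (H * L)) *
            (R α * Real.exp (2 * (Λ * α) - (Λ * α) ^ 2 / 2)) +
          (1 + θ) / (2 * Real.pi) * ((1 + θ) ^ 2 * H) * (R α * VV (Λ * α)) + K2 * H * R α) := by
      refine intervalIntegral.integral_mono_on zero_le_one ?_ ?_ fun α hα => ?_
      · exact (hRc.mul ((JJ_cont hF hU).comp (by fun_prop))).intervalIntegrable _ _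
      · exact (((hint1.const_mul _).add (hint2.const_mul _)).add (hint3.const_mul _)).add
          (hint4.const_mul _)
      · have h1 := hJb (Λ * α) (by have := hα.1; positivity) (by
          calc Λ * α ≤ Λ * 1 := by gcongr; exact hα.2
            _ = κ * L := by rw [hΛ]; ring)
        have h2 := mul_le_mul_of_nonneg_left h1 (hR.nonneg α)
        refine h2.trans (le_of_eq ?_)
        ring
    have hsplit : ∫ α in (0 : ℝ)..1, ((1 + θ) / (2 * Real.pi) * (H * L ^ 2) *
          (R α * Real.exp (-(Λ * α) ^ 2)) +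
          (1 + θ) / (2 * Real.pi) * (K1 * (H * L)) *
            (R α * Real.exp (2 * (Λ * α) - (Λ * α) ^ 2 / 2)) +
          (1 + θ) / (2 * Real.pi) * ((1 + θ) ^ 2 * H) * (R α * VV (Λ * α)) + K2 * H * R α) =
        (1 + θ) / (2 * Real.pi) * (H * L ^ 2) * (∫ α in (0 : ℝ)..1, R α * Real.exp (-(Λ * α) ^ 2)) +
          (1 + θ) / (2 * Real.pi) * (K1 * (H * L)) *
            (∫ α in (0 : ℝ)..1, R α * Real.exp (2 * (Λ * α) - (Λ * α) ^ 2 / 2)) +
          (1 + θ) / (2 * Real.pi) * ((1 + θ) ^ 2 * H) * (∫ α in (0 : ℝ)..1, R α * VV (Λ * α)) +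
          K2 * H * ∫ α in (0 : ℝ)..1, R α := by
      rw [intervalIntegral.integral_add (((hint1.const_mul _).add (hint2.const_mul _)).add
          (hint3.const_mul _)) (hint4.const_mul _),
        intervalIntegral.integral_add ((hint1.const_mul _).add (hint2.const_mul _))
          (hint3.const_mul _),
        intervalIntegral.integral_add (hint1.const_mul _) (hint2.const_mul _),
        intervalIntegral.integral_const_mul, intervalIntegral.integral_const_mul,
        intervalIntegral.integral_const_mul, intervalIntegral.integral_const_mul]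
    -- individual bounds
    have ha1 := a1_aux hR Λ hΛ0
    have ha2 := a2_aux hR Λ hΛ0
    have ha3 := ha3' Λ hΛ1
    have ha4 : ∫ α in (0 : ℝ)..1, R α ≤ R 0 := by
      calc ∫ α in (0 : ℝ)..1, R α ≤ ∫ α in (0 : ℝ)..1, R 0 := by
            refine intervalIntegral.integral_mono_on zero_le_one hint4
              (continuous_const.intervalIntegrable _ _) fun α hα => hR.le0 α
        _ = R 0 := by simp
    have hθp : 0 ≤ (1 + θ) / (2 * Real.pi) := by positivity
    have htot : 2 / spi * ∫ α in (0 : ℝ)..1, R α * JJ F U1 U2 (Λ * α) ≤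
        2 / spi * ((1 + θ) / (2 * Real.pi) * (H * L ^ 2) * (R 0 * (spi / (2 * Λ))) +
          (1 + θ) / (2 * Real.pi) * (K1 * (H * L)) * (R 0 * (Real.exp 4 * spi) / Λ) +
          (1 + θ) / (2 * Real.pi) * ((1 + θ) ^ 2 * H) * (spi * Λ * I1 + C4) +
          K2 * H * R 0) := by
      refine mul_le_mul_of_nonneg_left ?_ (by positivity)
      refine hb.trans ?_
      rw [hsplit]
      gcongr
    refine htot.trans ?_
    -- algebra
    have halg : 2 / spi * ((1 + θ) / (2 * Real.pi) * (H * L ^ 2) * (R 0 * (spi / (2 * Λ))) +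
          (1 + θ) / (2 * Real.pi) * (K1 * (H * L)) * (R 0 * (Real.exp 4 * spi) / Λ) +
          (1 + θ) / (2 * Real.pi) * ((1 + θ) ^ 2 * H) * (spi * Λ * I1 + C4) +
          K2 * H * R 0) =
        (H * L / (2 * Real.pi)) * ((1 + θ) * (R 0 / κ) +
          (1 + θ) ^ 3 * (2 * κ * I1)) + H * K5 := by
      rw [hK5, hΛ]
      field_simp
      ring
    rw [halg]
    have hcube : (1 + θ) ^ 3 ≤ 1 + 7 * θ := cube_aux θ hθ0.le hθ1
    have h1 : (1 + θ) * (R 0 / κ) + (1 + θ) ^ 3 * (2 * κ * I1) ≤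
        (1 + 7 * θ) * Q0 := by
      rw [hQ0, mul_add]
      have e1 : 0 ≤ R 0 / κ := by positivity
      have e2 : 0 ≤ 2 * κ * I1 := by positivity
      gcongr
      linarith
    have h2 : H * K5 ≤ (H * L / (2 * Real.pi)) * (η / 2) := by
      rw [div_le_iff₀ hη] at hL5
      have e3 : (H * L / (2 * Real.pi)) * (η / 2) = H * (L * η) / (4 * Real.pi) := by
        field_simp; ring
      rw [e3, le_div_iff₀ (by positivity)]
      nlinarith
    have h3 : 0 ≤ H * L / (2 * Real.pi) := by positivity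
    calc (H * L / (2 * Real.pi)) * ((1 + θ) * (R 0 / κ) +
          (1 + θ) ^ 3 * (2 * κ * I1)) + H * K5 ≤
        (H * L / (2 * Real.pi)) * ((1 + 7 * θ) * Q0) + (H * L / (2 * Real.pi)) * (η / 2) := by
          gcongr
      _ = (H * L / (2 * Real.pi)) * (Q0 + 7 * θ * Q0 + η / 2) := by ring
      _ ≤ (H * L / (2 * Real.pi)) * (Q0 + η) := by
          refine mul_le_mul_of_nonneg_left ?_ h3
          linarith only [hθ2]

end Pool.Agent.TH299.SW
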