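import Pool.Agent.TH299.SW.Pair

/-!
The window `1 - (47/100) cos 2πx - (3/20) cos 4πx` and its self-convolution.
-/

open Complex Filter Topology Set MeasureTheory

namespace Pool.Agent.TH299.SW

open H370 H295SI

/-- the square of the transform of a continuous window is the transform of its self-convolution -/
theorem kap_sq_gen {g R : ℝ → ℝ} (hg : Continuous g)
    (hconv : ∀ a : ℝ, ∫ x in (Set.Icc (-1 / 2 : ℝ) (1 / 2) ∩ Set.Icc (a - 1 / 2) (a + 1 / 2)),
      g x * g (a - x) = R a) (hR0 : ∀ a : ℝ, ¬ |a| ≤ 1 → R a = 0) : KSq g R := by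
  intro z
  set f : ℝ → ℂ := (Set.Icc (-1 / 2 : ℝ) (1 / 2)).indicator
    (fun x : ℝ => (g x : ℂ) * cexp (I * z * x)) with hf
  have hcont : Continuous (fun x : ℝ => (g x : ℂ) * cexp (I * z * x)) := by
    fun_prop
  have hfi : Integrable f := by
    rw [hf, integrable_indicator_iff measurableSet_Icc]
    exact hcont.continuousOn.integrableOn_Icc
  have h1 := integral_convolution (ContinuousLinearMap.mul ℝ ℂ) (μ := volume) (ν := volume) hfi hfi
  have hset : kapG g z = ∫ x : ℝ, f x := by
    unfold kapG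
    rw [hf, integral_indicator measurableSet_Icc, intervalIntegral.integral_of_le (by norm_num),
      integral_Icc_eq_integral_Ioc]
  rw [hset, pow_two]
  rw [ContinuousLinearMap.mul_apply'] at h1
  rw [← h1]
  have h2 : ∀ a : ℝ, (convolution f f (ContinuousLinearMap.mul ℝ ℂ) volume) a =
      (R a : ℂ) * cexp (I * z * a) := by
    intro a
    rw [convolution_def]
    rw [← hconv a]
    have h3 : ∀ t : ℝ, (ContinuousLinearMap.mul ℝ ℂ) (f t) (f (a - t)) =
        (Set.Icc (-1 / 2 : ℝ) (1 / 2) ∩ Set.Icc (a - 1 / 2) (a + 1 / 2)).indicator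
          (fun t : ℝ => ((g t * g (a - t) : ℝ) : ℂ) * cexp (I * z * a)) t := by
      intro t
      rw [ContinuousLinearMap.mul_apply', hf]
      by_cases ht : t ∈ Set.Icc (-1 / 2 : ℝ) (1 / 2)
      · by_cases ht2 : a - t ∈ Set.Icc (-1 / 2 : ℝ) (1 / 2)
        · have ht3 : t ∈ Set.Icc (-1 / 2 : ℝ) (1 / 2) ∩ Set.Icc (a - 1 / 2) (a + 1 / 2) := by
            refine ⟨ht, ?_, ?_⟩
            · have := ht2.2; linarith
            · have := ht2.1; linarith
          rw [Set.indicator_of_mem ht, Set.indicator_of_mem ht2, Set.indicator_of_mem ht3]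
          have e : cexp (I * z * a) = cexp (I * z * t) * cexp (I * z * ((a - t : ℝ) : ℂ)) := by
            rw [← Complex.exp_add]
            congr 1
            push_cast
            ring
          rw [e]
          push_cast
          ring
        · have ht3 : t ∉ Set.Icc (-1 / 2 : ℝ) (1 / 2) ∩ Set.Icc (a - 1 / 2) (a + 1 / 2) := by
            rintro ⟨_, h5, h6⟩
            apply ht2
            constructor <;> linarith
          rw [Set.indicator_of_notMem ht2, Set.indicator_of_notMem ht3, mul_zero]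
      · have ht3 : t ∉ Set.Icc (-1 / 2 : ℝ) (1 / 2) ∩ Set.Icc (a - 1 / 2) (a + 1 / 2) :=
          fun h => ht h.1
        rw [Set.indicator_of_notMem ht, Set.indicator_of_notMem ht3, zero_mul]
    simp_rw [h3]
    rw [integral_indicator (measurableSet_Icc.inter measurableSet_Icc), integral_mul_const,
      integral_complex_ofReal]
  simp_rw [h2]
  rw [intervalIntegral.integral_of_le (by norm_num), ← integral_Icc_eq_integral_Ioc,
    ← integral_indicator measurableSet_Icc]
  congr 1
  ext a
  by_cases ha : a ∈ Set.Icc (-1 : ℝ) 1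
  · rw [Set.indicator_of_mem ha]
  · rw [Set.indicator_of_notMem ha]
    have : ¬ |a| ≤ 1 := by
      rw [abs_le]; exact ha
    rw [hR0 a this]
    simp

/-- the window -/
noncomputable def gw (x : ℝ) : ℝ :=
  1 - 47 / 100 * Real.cos (2 * Real.pi * x) - 3 / 20 * Real.cos (4 * Real.pi * x)

/-- its self-convolution on `[0, 1]` -/
noncomputable def Rn (a : ℝ) : ℝ :=
  (1 - a) * (1 + 2209 / 20000 * Real.cos (2 * Real.pi * a) + 9 / 800 * Real.cos (4 * Real.pi * a))
    - 548725 / 1000000 / Real.pi * Real.sin (2 * Real.pi * a)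
    + 1191875 / 10000000 / Real.pi * Real.sin (4 * Real.pi * a)

/-- its self-convolution -/
noncomputable def Rw (α : ℝ) : ℝ := if |α| ≤ 1 then Rn |α| else 0

lemma gw_cont : Continuous gw := by unfold gw; fun_prop

lemma gw_even (x : ℝ) : gw (-x) = gw x := by
  unfold gw
  rw [mul_neg, mul_neg, Real.cos_neg, Real.cos_neg]

lemma gw_nonneg (x : ℝ) : 0 ≤ gw x := by
  unfold gw
  have h1 := Real.cos_le_one (2 * Real.pi * x)
  have h2 := Real.cos_le_one (4 * Real.pi * x)
  linarith

lemma cos_prod1 (u v : ℝ) : Real.cos (u + v) + Real.cos (u - v) = 2 * (Real.cos u * Real.cos v) := by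
  rw [Real.cos_add, Real.cos_sub]; ring

lemma cos_prod2 (u v : ℝ) : Real.cos (u + v) * Real.cos (u - v) =
    (Real.cos (2 * u) + Real.cos (2 * v)) / 2 := by
  rw [Real.cos_add, Real.cos_sub, Real.cos_two_mul, Real.cos_two_mul]
  have h1 := Real.sin_sq_add_cos_sq u
  have h2 := Real.sin_sq_add_cos_sq v
  have e : Real.sin u ^ 2 = 1 - Real.cos u ^ 2 := by linarith
  have e2 : Real.sin v ^ 2 = 1 - Real.cos v ^ 2 := by linarith
  have : (Real.cos u * Real.cos v - Real.sin u * Real.sin v) *
    (Real.cos u * Real.cos v + Real.sin u * Real.sin v) =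
    Real.cos u ^ 2 * Real.cos v ^ 2 - Real.sin u ^ 2 * Real.sin v ^ 2 := by ring
  rw [this, e, e2]
  ring

lemma cos_prod3 (u v : ℝ) : Real.cos (u + v) * Real.cos (2 * (u - v)) +
    Real.cos (2 * (u + v)) * Real.cos (u - v) =
    Real.cos (3 * u) * Real.cos v + Real.cos u * Real.cos (3 * v) := by
  have k1 : ∀ A B : ℝ, Real.cos A * Real.cos B = (Real.cos (A + B) + Real.cos (A - B)) / 2 := by
    intro A B
    rw [Real.cos_add, Real.cos_sub]; ring
  rw [k1, k1, k1, k1]
  have e1 : u + v + 2 * (u - v) = 3 * u - v := by ring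
  have e2 : u + v - 2 * (u - v) = -(u - 3 * v) := by ring
  have e3 : 2 * (u + v) + (u - v) = 3 * u + v := by ring
  have e4 : 2 * (u + v) - (u - v) = u + 3 * v := by ring
  rw [e1, e2, e3, e4, Real.cos_neg]
  ring

lemma prod_eq (u v : ℝ) :
    (1 - 47 / 100 * Real.cos (u + v) - 3 / 20 * Real.cos (2 * (u + v))) *
    (1 - 47 / 100 * Real.cos (u - v) - 3 / 20 * Real.cos (2 * (u - v))) =
    1 + 2209 / 20000 * (Real.cos (2 * u) + Real.cos (2 * v)) +
    9 / 800 * (Real.cos (4 * u) + Real.cos (4 * v)) -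
    47 / 50 * (Real.cos u * Real.cos v) - 3 / 10 * (Real.cos (2 * u) * Real.cos (2 * v)) +
    141 / 2000 * (Real.cos (3 * u) * Real.cos v + Real.cos u * Real.cos (3 * v)) := by
  have h1 := cos_prod1 u v
  have h2 := cos_prod2 u v
  have h3 := cos_prod1 (2 * u) (2 * v)
  have h4 := cos_prod2 (2 * u) (2 * v)
  have h5 := cos_prod3 u v
  have e1 : 2 * u + 2 * v = 2 * (u + v) := by ring
  have e2 : 2 * u - 2 * v = 2 * (u - v) := by ring
  have e3 : 2 * (2 * u) = 4 * u := by ring
  have e4 : 2 * (2 * v) = 4 * v := by ring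
  rw [e1, e2] at h3 h4
  rw [e3, e4] at h4
  linear_combination (-47 / 100) * h1 + (-3 / 20) * h3 + (2209 / 10000) * h2 +
    (9 / 400) * h4 + (141 / 2000) * h5

lemma conv_eval (a : ℝ) :
    ∫ x in (Set.Icc (-1 / 2 : ℝ) (1 / 2) ∩ Set.Icc (a - 1 / 2) (a + 1 / 2)),
    gw x * gw (a - x) = Rw a := by
  have hpi := Real.pi_pos
  by_cases ha : |a| ≤ 1
  · have hset : Set.Icc (-1 / 2 : ℝ) (1 / 2) ∩ Set.Icc (a - 1 / 2) (a + 1 / 2) =
        Set.Icc ((a - (1 - |a|)) / 2) ((a + (1 - |a|)) / 2) := by
      rw [Set.Icc_inter_Icc]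
      rcases abs_cases a with ⟨h1, h2⟩ | ⟨h1, h2⟩
      · rw [h1]
        have e1 : (-1 / 2 : ℝ) ⊔ (a - 1 / 2) = (a - (1 - a)) / 2 := by
          rw [sup_eq_right.2 (by linarith)]; ring
        have e2 : (1 / 2 : ℝ) ⊓ (a + 1 / 2) = (a + (1 - a)) / 2 := by
          rw [inf_eq_left.2 (by linarith)]; ring
        rw [e1, e2]
      · rw [h1]
        have e1 : (-1 / 2 : ℝ) ⊔ (a - 1 / 2) = (a - (1 - -a)) / 2 := by
          rw [sup_eq_left.2 (by linarith)]; ring
        have e2 : (1 / 2 : ℝ) ⊓ (a + 1 / 2) = (a + (1 - -a)) / 2 := by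
          rw [inf_eq_right.2 (by linarith)]; ring
        rw [e1, e2]
    rw [hset, integral_Icc_eq_integral_Ioc, ← intervalIntegral.integral_of_le (by linarith)]
    have hd : ∀ x ∈ Set.uIcc ((a - (1 - |a|)) / 2) ((a + (1 - |a|)) / 2), HasDerivAt
      (fun x : ℝ => x * (1 + 2209 / 20000 * Real.cos (2 * (Real.pi * a)) +
          9 / 800 * Real.cos (4 * (Real.pi * a))) +
        2209 / 20000 * (Real.sin (2 * (Real.pi * (2 * x - a))) / (4 * Real.pi)) +
        9 / 800 * (Real.sin (4 * (Real.pi * (2 * x - a))) / (8 * Real.pi)) -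
        47 / 50 * (Real.cos (Real.pi * a) * (Real.sin (Real.pi * (2 * x - a)) / (2 * Real.pi))) -
        3 / 10 * (Real.cos (2 * (Real.pi * a)) *
          (Real.sin (2 * (Real.pi * (2 * x - a))) / (4 * Real.pi))) +
        141 / 2000 * (Real.cos (3 * (Real.pi * a)) *
            (Real.sin (Real.pi * (2 * x - a)) / (2 * Real.pi)) +
          Real.cos (Real.pi * a) * (Real.sin (3 * (Real.pi * (2 * x - a))) / (6 * Real.pi))))
      (gw x * gw (a - x)) x := by
      intro x _
      have hx : HasDerivAt (fun x : ℝ => x) 1 x := hasDerivAt_id x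
      have h1 : HasDerivAt (fun x : ℝ => Real.pi * (2 * x - a)) (Real.pi * 2) x := by
        simpa using ((hx.const_mul 2).sub_const a).const_mul Real.pi
      have d1 := h1.sin.div_const (2 * Real.pi)
      have d2 := (h1.const_mul 2).sin.div_const (4 * Real.pi)
      have d3 := (h1.const_mul 3).sin.div_const (6 * Real.pi)
      have d4 := (h1.const_mul 4).sin.div_const (8 * Real.pi)
      have h2 := ((((((hx.mul_const (1 + 2209 / 20000 * Real.cos (2 * (Real.pi * a)) +
          9 / 800 * Real.cos (4 * (Real.pi * a)))).add (d2.const_mul (2209 / 20000))).add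
          (d4.const_mul (9 / 800))).sub ((d1.const_mul (Real.cos (Real.pi * a))).const_mul
            (47 / 50))).sub ((d2.const_mul (Real.cos (2 * (Real.pi * a)))).const_mul (3 / 10))).add
          (((d1.const_mul (Real.cos (3 * (Real.pi * a)))).add
            (d3.const_mul (Real.cos (Real.pi * a)))).const_mul (141 / 2000)))
      refine h2.congr_deriv ?_
      have e := prod_eq (Real.pi * a) (Real.pi * (2 * x - a))
      have e1 : Real.pi * a + Real.pi * (2 * x - a) = 2 * Real.pi * x := by ring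
      have e2 : Real.pi * a - Real.pi * (2 * x - a) = 2 * Real.pi * (a - x) := by ring
      have e3 : 2 * (2 * Real.pi * x) = 4 * Real.pi * x := by ring
      have e4 : 2 * (2 * Real.pi * (a - x)) = 4 * Real.pi * (a - x) := by ring
      rw [e1, e2, e3, e4] at e
      unfold gw
      rw [e]
      field_simp
      ring
    rw [intervalIntegral.integral_eq_sub_of_hasDerivAt hd]
    · unfold Rw Rn
      rw [if_pos ha]
      set L := 1 - |a| with hL
      have e1 : Real.pi * (2 * ((a + L) / 2) - a) = Real.pi * L := by ring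
      have e2 : Real.pi * (2 * ((a - L) / 2) - a) = -(Real.pi * L) := by ring
      have c1 : Real.cos (Real.pi * a) = Real.cos (Real.pi * |a|) := by
        rcases abs_cases a with ⟨h1, h2⟩ | ⟨h1, h2⟩
        · rw [h1]
        · rw [h1, mul_neg, Real.cos_neg]
      have c2 : Real.cos (2 * (Real.pi * a)) = Real.cos (2 * Real.pi * |a|) := by
        rcases abs_cases a with ⟨h1, h2⟩ | ⟨h1, h2⟩
        · rw [h1]; ring_nf
        · rw [h1, mul_neg, Real.cos_neg]; ring_nf
      have c3 : Real.cos (3 * (Real.pi * a)) = Real.cos (3 * (Real.pi * |a|)) := by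
        rcases abs_cases a with ⟨h1, h2⟩ | ⟨h1, h2⟩
        · rw [h1]
        · rw [h1, mul_neg, mul_neg, Real.cos_neg]
      have c4 : Real.cos (4 * (Real.pi * a)) = Real.cos (4 * Real.pi * |a|) := by
        rcases abs_cases a with ⟨h1, h2⟩ | ⟨h1, h2⟩
        · rw [h1]; ring_nf
        · rw [h1, mul_neg, Real.cos_neg]; ring_nf
      have s1 : Real.sin (Real.pi * L) = Real.sin (Real.pi * |a|) := by
        have : Real.pi * L = Real.pi - Real.pi * |a| := by rw [hL]; ring
        rw [this, Real.sin_pi_sub]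
      have s2 : Real.sin (2 * (Real.pi * L)) = -Real.sin (2 * Real.pi * |a|) := by
        have : 2 * (Real.pi * L) = -(2 * Real.pi * |a|) + 2 * Real.pi := by rw [hL]; ring
        rw [this, Real.sin_add_two_pi, Real.sin_neg]
      have s3 : Real.sin (3 * (Real.pi * L)) = Real.sin (3 * (Real.pi * |a|)) := by
        have : 3 * (Real.pi * L) = Real.pi - 3 * (Real.pi * |a|) + 2 * Real.pi := by rw [hL]; ring
        rw [this, Real.sin_add_two_pi, Real.sin_pi_sub]
      have s4 : Real.sin (4 * (Real.pi * L)) = -Real.sin (4 * Real.pi * |a|) := by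
        have : 4 * (Real.pi * L) = -(4 * Real.pi * |a|) + 2 * Real.pi + 2 * Real.pi := by
          rw [hL]; ring
        rw [this, Real.sin_add_two_pi, Real.sin_add_two_pi, Real.sin_neg]
      have p1 : Real.sin (2 * Real.pi * |a|) = 2 * Real.sin (Real.pi * |a|) *
          Real.cos (Real.pi * |a|) := by
        rw [← Real.sin_two_mul]; ring_nf
      have p2 : Real.sin (4 * Real.pi * |a|) = 2 * Real.sin (2 * Real.pi * |a|) *
          Real.cos (2 * Real.pi * |a|) := by
        rw [← Real.sin_two_mul]; ring_nf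
      have p3 : Real.cos (3 * (Real.pi * |a|)) = 4 * Real.cos (Real.pi * |a|) ^ 3 -
          3 * Real.cos (Real.pi * |a|) := Real.cos_three_mul _
      have p4 : Real.sin (3 * (Real.pi * |a|)) = 3 * Real.sin (Real.pi * |a|) -
          4 * Real.sin (Real.pi * |a|) ^ 3 := Real.sin_three_mul _
      have p5 : Real.cos (2 * Real.pi * |a|) = 2 * Real.cos (Real.pi * |a|) ^ 2 - 1 := by
        rw [← Real.cos_two_mul]; ring_nf
      have p6 : Real.cos (2 * Real.pi * |a|) = 1 - 2 * Real.sin (Real.pi * |a|) ^ 2 := by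
        have := Real.sin_sq_add_cos_sq (Real.pi * |a|)
        rw [p5]; linarith
      have q1 : Real.cos (3 * (Real.pi * |a|)) * Real.sin (Real.pi * |a|) =
          (Real.sin (4 * Real.pi * |a|) - Real.sin (2 * Real.pi * |a|)) / 2 := by
        rw [p3, p2, p1, p5]; ring
      have q2 : Real.cos (Real.pi * |a|) * Real.sin (3 * (Real.pi * |a|)) =
          (Real.sin (4 * Real.pi * |a|) + Real.sin (2 * Real.pi * |a|)) / 2 := by
        rw [p4, p2, p1, p6]; ring
      have q3 : Real.cos (Real.pi * |a|) * Real.sin (Real.pi * |a|) =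
          Real.sin (2 * Real.pi * |a|) / 2 := by rw [p1]; ring
      have q4 : Real.cos (2 * Real.pi * |a|) * Real.sin (2 * Real.pi * |a|) =
          Real.sin (4 * Real.pi * |a|) / 2 := by rw [p2]; ring
      rw [e1, e2, mul_neg, mul_neg, mul_neg, Real.sin_neg, Real.sin_neg, Real.sin_neg,
        Real.sin_neg, s1, s2, s3, s4, c1, c2, c3, c4]
      have hL' : (a + L) / 2 - (a - L) / 2 = 1 - |a| := by rw [hL]; ring
      have hpi0 : Real.pi ≠ 0 := hpi.ne'
      have fin : (a + L) / 2 * (1 + 2209 / 20000 * Real.cos (2 * Real.pi * |a|) +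
          9 / 800 * Real.cos (4 * Real.pi * |a|)) - (a - L) / 2 * (1 + 2209 / 20000 *
          Real.cos (2 * Real.pi * |a|) + 9 / 800 * Real.cos (4 * Real.pi * |a|)) =
          (1 - |a|) * (1 + 2209 / 20000 * Real.cos (2 * Real.pi * |a|) +
          9 / 800 * Real.cos (4 * Real.pi * |a|)) := by rw [← sub_mul, hL']
      rw [← fin]
      have r1 : Real.cos (3 * (Real.pi * |a|)) * (Real.sin (Real.pi * |a|) / (2 * Real.pi)) =
          (Real.sin (4 * Real.pi * |a|) - Real.sin (2 * Real.pi * |a|)) / 2 / (2 * Real.pi) := by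
        rw [← q1]; ring
      have r2 : Real.cos (Real.pi * |a|) * (Real.sin (3 * (Real.pi * |a|)) / (6 * Real.pi)) =
          (Real.sin (4 * Real.pi * |a|) + Real.sin (2 * Real.pi * |a|)) / 2 / (6 * Real.pi) := by
        rw [← q2]; ring
      have r3 : Real.cos (Real.pi * |a|) * (Real.sin (Real.pi * |a|) / (2 * Real.pi)) =
          Real.sin (2 * Real.pi * |a|) / 2 / (2 * Real.pi) := by
        rw [← q3]; ring
      have r4 : Real.cos (2 * Real.pi * |a|) * (Real.sin (2 * Real.pi * |a|) / (4 * Real.pi)) =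
          Real.sin (4 * Real.pi * |a|) / 2 / (4 * Real.pi) := by
        rw [← q4]; ring
      have t1 : 1 / Real.pi * Real.pi = 1 := by field_simp
      linear_combination (2 * 141 / 2000) * r1 + (2 * 141 / 2000) * r2 - (2 * 47 / 50) * r3 +
        (2 * 3 / 10) * r4
    · apply Continuous.intervalIntegrable
      have := gw_cont
      fun_prop
  · have hset : Set.Icc (-1 / 2 : ℝ) (1 / 2) ∩ Set.Icc (a - 1 / 2) (a + 1 / 2) = ∅ := by
      rw [Set.Icc_inter_Icc]
      apply Set.Icc_eq_empty
      intro h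
      apply ha
      simp only [sup_le_iff, le_inf_iff] at h
      rw [abs_le]
      constructor <;> linarith [h.1.1, h.1.2, h.2.1, h.2.2]
    rw [hset]
    unfold Rw
    rw [if_neg ha]
    simp

theorem ksq_gw : KSq gw Rw := kap_sq_gen gw_cont conv_eval fun a ha => by
  unfold Rw; rw [if_neg ha]

end Pool.Agent.TH299.SW
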