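import Pool.Agent.TH299.SW.Win

/-!
The window `gw`: mass, properties of the self-convolution, value of the constant.
-/

open Complex Filter Topology Set MeasureTheory

namespace Pool.Agent.TH299.SW

open H370 H295SI

lemma sin_two_pi_half : Real.sin (2 * Real.pi * (1 / 2)) = 0 := by
  rw [show 2 * Real.pi * (1 / 2) = Real.pi by ring, Real.sin_pi]

lemma gw_mass : ∫ x in (-1 / 2 : ℝ)..(1 / 2), gw x = 1 := by
  have hpi := Real.pi_pos
  have hd : ∀ x ∈ Set.uIcc (-1 / 2 : ℝ) (1 / 2), HasDerivAt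
      (fun x : ℝ => x - 47 / 100 * (Real.sin (2 * Real.pi * x) / (2 * Real.pi)) -
        3 / 20 * (Real.sin (4 * Real.pi * x) / (4 * Real.pi))) (gw x) x := by
    intro x _
    have hx : HasDerivAt (fun x : ℝ => x) 1 x := hasDerivAt_id x
    have d1 := ((hx.const_mul (2 * Real.pi)).sin.div_const (2 * Real.pi)).const_mul (47 / 100)
    have d2 := ((hx.const_mul (4 * Real.pi)).sin.div_const (4 * Real.pi)).const_mul (3 / 20)
    refine ((hx.sub d1).sub d2).congr_deriv ?_
    unfold gw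
    field_simp
  rw [intervalIntegral.integral_eq_sub_of_hasDerivAt hd (gw_cont.intervalIntegrable _ _)]
  have e1 : 2 * Real.pi * (1 / 2) = Real.pi := by ring
  have e2 : 4 * Real.pi * (1 / 2) = 2 * Real.pi := by ring
  have e3 : 2 * Real.pi * (-1 / 2) = -Real.pi := by ring
  have e4 : 4 * Real.pi * (-1 / 2) = -(2 * Real.pi) := by ring
  rw [e1, e2, e3, e4, Real.sin_neg, Real.sin_neg, Real.sin_pi, Real.sin_two_pi]
  norm_num

theorem win_gw : Win gw := ⟨gw_cont, fun x _ _ => gw_nonneg x, gw_even, gw_mass⟩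

lemma Rw_nonneg (a : ℝ) : 0 ≤ Rw a := by
  rw [← conv_eval a]
  exact setIntegral_nonneg (measurableSet_Icc.inter measurableSet_Icc)
    fun x _ => mul_nonneg (gw_nonneg x) (gw_nonneg _)

lemma Rw_zero_int : Rw 0 = ∫ x in Set.Icc (-1 / 2 : ℝ) (1 / 2), gw x ^ 2 := by
  rw [← conv_eval 0]
  have : Set.Icc (-1 / 2 : ℝ) (1 / 2) ∩ Set.Icc (0 - 1 / 2) (0 + 1 / 2) =
      Set.Icc (-1 / 2 : ℝ) (1 / 2) := by
    rw [Set.inter_eq_left]
    apply Set.Icc_subset_Icc <;> norm_num
  rw [this]
  refine setIntegral_congr_fun measurableSet_Icc fun x _ => ?_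
  show gw x * gw (0 - x) = gw x ^ 2
  rw [zero_sub, gw_even, pow_two]

lemma Rw_le0 (a : ℝ) : Rw a ≤ Rw 0 := by
  have hc := gw_cont
  set S := Set.Icc (-1 / 2 : ℝ) (1 / 2) ∩ Set.Icc (a - 1 / 2) (a + 1 / 2) with hS
  have hSm : MeasurableSet S := measurableSet_Icc.inter measurableSet_Icc
  have hi1 : IntegrableOn (fun x => gw x ^ 2) (Set.Icc (-1 / 2 : ℝ) (1 / 2)) :=
    (hc.pow 2).continuousOn.integrableOn_Icc
  have hi1' : IntegrableOn (fun x => gw x ^ 2) S := hi1.mono_set Set.inter_subset_left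
  have hi2 : IntegrableOn (fun x => gw (a - x) ^ 2) (Set.Icc (a - 1 / 2) (a + 1 / 2)) :=
    (by fun_prop : Continuous fun x => gw (a - x) ^ 2).continuousOn.integrableOn_Icc
  have hi2' : IntegrableOn (fun x => gw (a - x) ^ 2) S := hi2.mono_set Set.inter_subset_right
  have hi3 : IntegrableOn (fun x => gw x * gw (a - x)) S :=
    ((by fun_prop : Continuous fun x => gw x * gw (a - x)).continuousOn.integrableOn_Icc
      (a := (-1 / 2 : ℝ)) (b := 1 / 2)).mono_set Set.inter_subset_left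
  have h1 : Rw a ≤ ∫ x in S, (gw x ^ 2 / 2 + gw (a - x) ^ 2 / 2) := by
    rw [← conv_eval a]
    refine setIntegral_mono hi3 ((hi1'.div_const 2).add (hi2'.div_const 2)) fun x => ?_
    show gw x * gw (a - x) ≤ gw x ^ 2 / 2 + gw (a - x) ^ 2 / 2
    nlinarith [sq_nonneg (gw x - gw (a - x))]
  have h2 : ∫ x in S, gw x ^ 2 ≤ Rw 0 := by
    rw [Rw_zero_int]
    exact setIntegral_mono_set hi1 (Eventually.of_forall fun x => sq_nonneg _)
      Set.inter_subset_left.eventuallyLE
  have h3 : ∫ x in S, gw (a - x) ^ 2 ≤ Rw 0 := by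
    refine (setIntegral_mono_set hi2 (Eventually.of_forall fun x => sq_nonneg _)
      Set.inter_subset_right.eventuallyLE).trans (le_of_eq ?_)
    rw [Rw_zero_int, integral_Icc_eq_integral_Ioc, integral_Icc_eq_integral_Ioc,
      ← intervalIntegral.integral_of_le (by linarith), ← intervalIntegral.integral_of_le (by norm_num),
      intervalIntegral.integral_comp_sub_left (fun x => gw x ^ 2) a]
    congr 1 <;> ring
  rw [integral_add (hi1'.div_const 2) (hi2'.div_const 2), integral_div, integral_div] at h1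
  linarith

lemma Rn_one : Rn 1 = 0 := by
  unfold Rn
  have e1 : 2 * Real.pi * 1 = 2 * Real.pi := by ring
  have e2 : 4 * Real.pi * 1 = 2 * Real.pi + 2 * Real.pi := by ring
  rw [e1, e2, Real.sin_add_two_pi, Real.sin_two_pi]
  ring

lemma Rw_min (a : ℝ) : Rw a = Rn (min |a| 1) := by
  unfold Rw
  split_ifs with h
  · rw [min_eq_left h]
  · rw [min_eq_right (by linarith), Rn_one]

lemma Rn_contDiff : ContDiff ℝ 1 Rn := by
  unfold Rn
  fun_prop

lemma Rn_lip : ∃ K : ℝ, 0 < K ∧ ∀ x ∈ Set.Icc (0 : ℝ) 1, ∀ y ∈ Set.Icc (0 : ℝ) 1,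
    |Rn x - Rn y| ≤ K * |x - y| := by
  have hc : ContinuousOn (deriv Rn) (Set.Icc 0 1) :=
    (Rn_contDiff.continuous_deriv le_rfl).continuousOn
  obtain ⟨C, hC⟩ := isCompact_Icc.exists_bound_of_continuousOn hc
  refine ⟨max C 1, by positivity, fun x hx y hy => ?_⟩
  have h := (convex_Icc (0 : ℝ) 1).norm_image_sub_le_of_norm_deriv_le (f := Rn) (C := max C 1)
    (fun z _ => (Rn_contDiff.differentiable one_ne_zero) z)
    (fun z hz => (hC z hz).trans (le_max_left _ _)) hy hx
  simpa [Real.norm_eq_abs] using h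

lemma cv_Rw : CV Rw := by
  obtain ⟨K, hK, h⟩ := Rn_lip
  refine ⟨Rw_nonneg, Rw_le0, ⟨K, hK, fun x y => ?_⟩, fun a => ?_, fun a ha => ?_⟩
  · rw [Rw_min, Rw_min]
    refine (h _ ⟨le_min (abs_nonneg _) zero_le_one, min_le_right _ _⟩ _
      ⟨le_min (abs_nonneg _) zero_le_one, min_le_right _ _⟩).trans ?_
    apply mul_le_mul_of_nonneg_left _ hK.le
    exact (abs_min_sub_min_le_max _ _ _ _).trans (by simpa using abs_abs_sub_abs_le x y)
  · rw [Rw_min, Rw_min, abs_neg]
  · rw [Rw_min, min_eq_right ha, Rn_one]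

lemma Rw_zero : Rw 0 = 1 + 2209 / 20000 + 9 / 800 := by
  unfold Rw Rn
  simp

lemma int_aR : ∫ α in (0 : ℝ)..1, α * Rw α = 1 / 6 + (-(2209 / 20000) / 2 - 9 / 800 / 8 +
    548725 / 1000000 / 2 - 1191875 / 10000000 / 4) / Real.pi ^ 2 := by
  have hpi := Real.pi_pos
  have h0 : ∫ α in (0 : ℝ)..1, α * Rw α = ∫ α in (0 : ℝ)..1, α * Rn α := by
    refine intervalIntegral.integral_congr fun α hα => ?_
    rw [Set.uIcc_of_le zero_le_one] at hα
    show α * Rw α = α * Rn α
    unfold Rw
    rw [if_pos (by rw [abs_of_nonneg hα.1]; exact hα.2), abs_of_nonneg hα.1]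
  rw [h0]
  have hd : ∀ x ∈ Set.uIcc (0 : ℝ) 1, HasDerivAt
      (fun x : ℝ => (x ^ 2 / 2 - x ^ 3 / 3) +
        2209 / 20000 * (x * (1 - x) * (Real.sin (2 * Real.pi * x) / (2 * Real.pi)) +
          (1 - 2 * x) * (Real.cos (2 * Real.pi * x) / (2 * Real.pi) ^ 2) +
          2 * (Real.sin (2 * Real.pi * x) / (2 * Real.pi) ^ 3)) +
        9 / 800 * (x * (1 - x) * (Real.sin (4 * Real.pi * x) / (4 * Real.pi)) +
          (1 - 2 * x) * (Real.cos (4 * Real.pi * x) / (4 * Real.pi) ^ 2) +
          2 * (Real.sin (4 * Real.pi * x) / (4 * Real.pi) ^ 3)) -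
        548725 / 1000000 / Real.pi * (-(x * (Real.cos (2 * Real.pi * x) / (2 * Real.pi))) +
          Real.sin (2 * Real.pi * x) / (2 * Real.pi) ^ 2) +
        1191875 / 10000000 / Real.pi * (-(x * (Real.cos (4 * Real.pi * x) / (4 * Real.pi))) +
          Real.sin (4 * Real.pi * x) / (4 * Real.pi) ^ 2)) (x * Rn x) x := by
    intro x _
    have hx : HasDerivAt (fun x : ℝ => x) 1 x := hasDerivAt_id x
    have hx2 : HasDerivAt (fun x : ℝ => x ^ 2 / 2 - x ^ 3 / 3) (x - x ^ 2) x := by
      have := ((hasDerivAt_pow 2 x).div_const 2).sub ((hasDerivAt_pow 3 x).div_const 3)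
      exact this.congr_deriv (by push_cast; ring)
    have hq : HasDerivAt (fun x : ℝ => x * (1 - x)) (1 - 2 * x) x := by
      have := hx.mul (hx.const_sub 1)
      exact this.congr_deriv (by ring)
    have hl : HasDerivAt (fun x : ℝ => 1 - 2 * x) (-2) x := by
      have := (hx.const_mul 2).const_sub 1
      exact this.congr_deriv (by ring)
    have s1 : HasDerivAt (fun x : ℝ => Real.sin (2 * Real.pi * x))
        (Real.cos (2 * Real.pi * x) * (2 * Real.pi)) x := by
      have := (hx.const_mul (2 * Real.pi)).sin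
      exact this.congr_deriv (by ring)
    have s2 : HasDerivAt (fun x : ℝ => Real.sin (4 * Real.pi * x))
        (Real.cos (4 * Real.pi * x) * (4 * Real.pi)) x := by
      have := (hx.const_mul (4 * Real.pi)).sin
      exact this.congr_deriv (by ring)
    have c1 : HasDerivAt (fun x : ℝ => Real.cos (2 * Real.pi * x))
        (-Real.sin (2 * Real.pi * x) * (2 * Real.pi)) x := by
      have := (hx.const_mul (2 * Real.pi)).cos
      exact this.congr_deriv (by ring)
    have c2 : HasDerivAt (fun x : ℝ => Real.cos (4 * Real.pi * x))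
        (-Real.sin (4 * Real.pi * x) * (4 * Real.pi)) x := by
      have := (hx.const_mul (4 * Real.pi)).cos
      exact this.congr_deriv (by ring)
    have D := (((hx2.add (((((hq.mul (s1.div_const (2 * Real.pi))).add
        (hl.mul (c1.div_const ((2 * Real.pi) ^ 2)))).add
        ((s1.div_const ((2 * Real.pi) ^ 3)).const_mul 2))).const_mul (2209 / 20000))).add
        ((((hq.mul (s2.div_const (4 * Real.pi))).add
        (hl.mul (c2.div_const ((4 * Real.pi) ^ 2)))).add
        ((s2.div_const ((4 * Real.pi) ^ 3)).const_mul 2)).const_mul (9 / 800))).sub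
        (((hx.mul (c1.div_const (2 * Real.pi))).neg.add
          (s1.div_const ((2 * Real.pi) ^ 2))).const_mul (548725 / 1000000 / Real.pi))).add
        (((hx.mul (c2.div_const (4 * Real.pi))).neg.add
          (s2.div_const ((4 * Real.pi) ^ 2))).const_mul (1191875 / 10000000 / Real.pi))
    refine D.congr_deriv ?_
    unfold Rn
    field_simp
    ring
  have hc : Continuous Rn := Rn_contDiff.continuous
  rw [intervalIntegral.integral_eq_sub_of_hasDerivAt hd
    ((continuous_id.mul hc).intervalIntegrable _ _)]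
  have e1 : 2 * Real.pi * 1 = 2 * Real.pi := by ring
  have e2 : 4 * Real.pi * 1 = 2 * Real.pi + 2 * Real.pi := by ring
  rw [e1, e2, Real.sin_add_two_pi, Real.sin_two_pi, Real.cos_add_two_pi, Real.cos_two_pi]
  simp only [mul_zero, Real.cos_zero, Real.sin_zero]
  field_simp
  ring

lemma pi_sq_lo : 9.8695 < Real.pi ^ 2 := by
  have := Real.pi_gt_d6
  nlinarith

/-- the constant of the window -/
lemma cR_one : Rw 0 + 2 * ∫ α in (0 : ℝ)..1, α * Rw α ≤ 1.49312 := by
  rw [Rw_zero, int_aR]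
  have h := pi_sq_lo
  have hp : 0 < Real.pi ^ 2 := by positivity
  have h2 : (-(2209 / 20000) / 2 - 9 / 800 / 8 + 548725 / 1000000 / 2 -
      1191875 / 10000000 / 4) / Real.pi ^ 2 ≤ (-(2209 / 20000) / 2 - 9 / 800 / 8 +
      548725 / 1000000 / 2 - 1191875 / 10000000 / 4) / 9.8695 := by
    apply div_le_div_of_nonneg_left _ (by norm_num) h.le
    norm_num
  norm_num at h2 ⊢
  linarith

end Pool.Agent.TH299.SW
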